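import Pool.Agent.Lib.MP_5cdc53_co.VM.Stmts
import Pool.Agent.Lib.MP_5cdc53_co.PP.LinesP

/-!
# The circles on the members of a large `(n, v, {0, 1, 2, f})`-system
-/

set_option autoImplicit false

namespace Pool.Agent.Lib.MP_5cdc53_co.VM

open Finset PP PP.LinesAux

theorem stCirc (hT : StTrace) : StCirc := by
  classical
  intro v f hf2 _hfv
  refine ⟨1 + 2 ^ v * v + 1, ?_⟩
  intro n _hn F hF
  set K0 := 1 + 2 ^ v * v + 1 with hK0
  set G : Fin n → Fin n → Fin n → Finset (Finset (Fin n)) := fun x y z =>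
    F.filter (fun X => x ∈ X ∧ y ∈ X ∧ z ∈ X) with hGdef
  have hmemG : ∀ x y z X, X ∈ G x y z ↔ X ∈ F ∧ x ∈ X ∧ y ∈ X ∧ z ∈ X := by
    intro x y z X; simp [hGdef]
  have hGsys : ∀ x y z, x ≠ y → x ≠ z → y ≠ z → IsSystem n v {f} (G x y z) := by
    intro x y z hxy hxz hyz
    refine ⟨fun X hX => hF.1 X ((hmemG _ _ _ _).1 hX).1, ?_⟩
    intro X hX Y hY hne
    obtain ⟨hX1, hX2, hX3, hX4⟩ := (hmemG _ _ _ _).1 hX
    obtain ⟨hY1, hY2, hY3, hY4⟩ := (hmemG _ _ _ _).1 hY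
    have h1 := hF.2 X hX1 Y hY1 hne
    have h2 : 3 ≤ (X ∩ Y).card := by
      have h3 : ({x, y, z} : Finset (Fin n)) ⊆ X ∩ Y := by
        intro w hw
        simp only [Finset.mem_insert, Finset.mem_singleton] at hw
        rcases hw with rfl | rfl | rfl
        · exact Finset.mem_inter.mpr ⟨hX2, hY2⟩
        · exact Finset.mem_inter.mpr ⟨hX3, hY3⟩
        · exact Finset.mem_inter.mpr ⟨hX4, hY4⟩
      have h4 := Finset.card_le_card h3
      have h5 : ({x, y, z} : Finset (Fin n)).card = 3 := Finset.card_eq_three.2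
        ⟨x, y, z, hxy, hxz, hyz, rfl⟩
      omega
    simp only [Finset.mem_insert, Finset.mem_singleton] at h1 ⊢
    omega
  have hex : ∀ x y z, ∃ A : Finset (Fin n), x ≠ y → x ≠ z → y ≠ z → K0 < (G x y z).card →
      A.card = f ∧ (∀ X ∈ G x y z, A ⊆ X) ∧
        ∀ X ∈ G x y z, ∀ Y ∈ G x y z, X ≠ Y → X ∩ Y = A := by
    intro x y z
    by_cases h : x ≠ y ∧ x ≠ z ∧ y ≠ z ∧ K0 < (G x y z).card
    · obtain ⟨E, hE⟩ := sunflower hT (hGsys x y z h.1 h.2.1 h.2.2.1) (by omega)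
      exact ⟨E, fun _ _ _ _ => hE⟩
    · exact ⟨∅, fun h1 h2 h3 h4 => absurd ⟨h1, h2, h3, h4⟩ h⟩
  choose A hA using hex
  obtain ⟨R, hR⟩ : ∃ R : Finset (Fin n) → Prop, ∀ X, R X ↔ ∀ x ∈ X, ∀ y ∈ X, ∀ z ∈ X,
      x ≠ y → x ≠ z → y ≠ z → K0 < (G x y z).card := ⟨_, fun _ => Iff.rfl⟩
  set M := F.filter R with hM
  have hrich : ∀ X ∈ M, ∀ x ∈ X, ∀ y ∈ X, ∀ z ∈ X, x ≠ y → x ≠ z → y ≠ z →
      K0 < (G x y z).card := fun X hX => (hR X).1 (Finset.mem_filter.mp hX).2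
  have hMF : M ⊆ F := Finset.filter_subset _ _
  refine ⟨M, hMF, A, ⟨?_, ?_, ?_⟩, ?_⟩
  · intro X hX
    exact hF.1 X (hMF hX)
  · intro X hX x hx y hy z hz hxy hxz hyz
    have hr := hrich X hX x hx y hy z hz hxy hxz hyz
    obtain ⟨h1, h2, h3⟩ := hA x y z hxy hxz hyz hr
    have hXG : X ∈ G x y z := (hmemG _ _ _ _).2 ⟨hMF hX, hx, hy, hz⟩
    obtain ⟨X1, hX1, X2, hX2, h12⟩ := Finset.one_lt_card.mp (by omega : 1 < (G x y z).card)
    have h4 := h3 X1 hX1 X2 hX2 h12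
    obtain ⟨-, a1, a2, a3⟩ := (hmemG _ _ _ _).1 hX1
    obtain ⟨-, b1, b2, b3⟩ := (hmemG _ _ _ _).1 hX2
    refine ⟨?_, ?_, ?_, h2 X hXG, h1, ?_⟩
    · rw [← h4]; exact Finset.mem_inter.mpr ⟨a1, b1⟩
    · rw [← h4]; exact Finset.mem_inter.mpr ⟨a2, b2⟩
    · rw [← h4]; exact Finset.mem_inter.mpr ⟨a3, b3⟩
    · intro u hu w hw t ht huw hut hwt
      have hr' := hrich X hX u (h2 X hXG hu) w (h2 X hXG hw) t (h2 X hXG ht) huw hut hwt
      obtain ⟨-, -, g3⟩ := hA u w t huw hut hwt hr'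
      have hu' := hu
      have hw' := hw
      have ht' := ht
      rw [← h4] at hu' hw' ht'
      obtain ⟨u1, u2⟩ := Finset.mem_inter.mp hu'
      obtain ⟨w1, w2⟩ := Finset.mem_inter.mp hw'
      obtain ⟨t1, t2⟩ := Finset.mem_inter.mp ht'
      have c1 : X1 ∈ G u w t := (hmemG _ _ _ _).2 ⟨((hmemG _ _ _ _).1 hX1).1, u1, w1, t1⟩
      have c2 : X2 ∈ G u w t := (hmemG _ _ _ _).2 ⟨((hmemG _ _ _ _).1 hX2).1, u2, w2, t2⟩
      rw [← g3 X1 c1 X2 c2 h12, h4]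
  · intro X hX Y hY hne x hx y hy z hz hxy hxz hyz
    obtain ⟨hx1, hx2⟩ := Finset.mem_inter.mp hx
    obtain ⟨hy1, hy2⟩ := Finset.mem_inter.mp hy
    obtain ⟨hz1, hz2⟩ := Finset.mem_inter.mp hz
    have hr := hrich X hX x hx1 y hy1 z hz1 hxy hxz hyz
    exact (hA x y z hxy hxz hyz hr).2.2 X ((hmemG _ _ _ _).2 ⟨hMF hX, hx1, hy1, hz1⟩) Y
      ((hmemG _ _ _ _).2 ⟨hMF hY, hx2, hy2, hz2⟩) hne
  · have hsub : F ⊆ M ∪ (univ : Finset (Fin n × Fin n × Fin n)).biUnion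
        (fun p => if K0 < (G p.1 p.2.1 p.2.2).card then ∅ else G p.1 p.2.1 p.2.2) := by
      intro X hX
      by_cases hXM : X ∈ M
      · exact Finset.mem_union_left _ hXM
      · refine Finset.mem_union_right _ ?_
        have h1 : ¬ ∀ x ∈ X, ∀ y ∈ X, ∀ z ∈ X, x ≠ y → x ≠ z → y ≠ z →
            K0 < (G x y z).card := fun h => hXM (Finset.mem_filter.mpr ⟨hX, (hR X).2 h⟩)
        push Not at h1
        obtain ⟨x, hx, y, hy, z, hz, -, -, -, hle⟩ := h1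
        rw [Finset.mem_biUnion]
        refine ⟨(x, y, z), Finset.mem_univ _, ?_⟩
        rw [if_neg (by simpa using hle)]
        exact (hmemG _ _ _ _).2 ⟨hX, hx, hy, hz⟩
    refine (Finset.card_le_card hsub).trans ((Finset.card_union_le _ _).trans ?_)
    refine Nat.add_le_add_left (Finset.card_biUnion_le.trans ?_) _
    have h2 : ∀ p ∈ (univ : Finset (Fin n × Fin n × Fin n)),
        (if K0 < (G p.1 p.2.1 p.2.2).card then (∅ : Finset (Finset (Fin n)))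
          else G p.1 p.2.1 p.2.2).card ≤ K0 := by
      intro p _
      split_ifs with h
      · simp
      · exact not_lt.mp h
    refine (Finset.sum_le_card_nsmul _ _ _ h2).trans (le_of_eq ?_)
    rw [Finset.card_univ, Fintype.card_prod, Fintype.card_prod, Fintype.card_fin, smul_eq_mul]
    ring

end Pool.Agent.Lib.MP_5cdc53_co.VM
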