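import Pool.Agent.Lib.MP_5cdc53_co.VM.Stmts

/-!
# Few coloured members carry a Vamos configuration (triangle removal in the links of pairs)
-/

set_option autoImplicit false

namespace Pool.Agent.Lib.MP_5cdc53_co.VM

open Finset SimpleGraph SimpleGraph.TripartiteFromTriangles

namespace FewAux

variable {n v f : ℕ} {M : Finset (Finset (Fin n))} {A : Fin n → Fin n → Fin n → Finset (Fin n)}
  {p : Finset (Fin n) → Fin 8 → Fin n} {S : Fin 8 → Finset (Fin n)}

theorem memF (hp : ∀ F ∈ M, Vam A (p F) ∧ ∀ i, F ∩ S i = {p F i}) {F : Finset (Fin n)}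
    (hF : F ∈ M) (i : Fin 8) : p F i ∈ F ∧ p F i ∈ S i := by
  have h := (hp F hF).2 i
  have h2 : p F i ∈ F ∩ S i := by
    rw [h]
    exact mem_singleton_self _
  exact mem_inter.1 h2

theorem recog (hp : ∀ F ∈ M, Vam A (p F) ∧ ∀ i, F ∩ S i = {p F i}) {F : Finset (Fin n)}
    (hF : F ∈ M) {i : Fin 8} {r : Fin n} (h1 : r ∈ F) (h2 : r ∈ S i) : r = p F i := by
  have h := (hp F hF).2 i
  have h3 : r ∈ F ∩ S i := mem_inter.2 ⟨h1, h2⟩
  rw [h] at h3
  exact mem_singleton.1 h3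

theorem neP (hp : ∀ F ∈ M, Vam A (p F) ∧ ∀ i, F ∩ S i = {p F i}) {F : Finset (Fin n)}
    (hF : F ∈ M) {a b : Fin 8} (h : a ≠ b) : p F a ≠ p F b :=
  fun h2 => h ((hp F hF).1.inj h2)

/-- a point on the circle of three agreeing points agrees -/
theorem keyK (hL : Circ v f M A) (hp : ∀ F ∈ M, Vam A (p F) ∧ ∀ i, F ∩ S i = {p F i})
    {F G : Finset (Fin n)} (hF : F ∈ M) (hG : G ∈ M) (a b c i : Fin 8) (hab : a ≠ b)
    (hac : a ≠ c) (hbc : b ≠ c)
    (ha : p F a = p G a) (hb : p F b = p G b) (hc : p F c = p G c)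
    (hr : p F i ∈ A (p F a) (p F b) (p F c)) : p F i = p G i := by
  have h1 : p F a ∈ G := ha ▸ (memF hp hG a).1
  have h2 : p F b ∈ G := hb ▸ (memF hp hG b).1
  have h2' : p F c ∈ G := hc ▸ (memF hp hG c).1
  have h3 := (hL.circ G hG _ h1 _ h2 _ h2' (neP hp hF hab) (neP hp hF hac)
    (neP hp hF hbc)).2.2.2.1
  exact recog hp hG (h3 hr) (memF hp hF i).2

/-- four agreeing points that are not concircular -/
theorem agree (hL : Circ v f M A) (hp : ∀ F ∈ M, Vam A (p F) ∧ ∀ i, F ∩ S i = {p F i})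
    {F G : Finset (Fin n)} (hF : F ∈ M) (hG : G ∈ M) (a b c i : Fin 8) (hab : a ≠ b)
    (hac : a ≠ c) (hbc : b ≠ c)
    (ha : p F a = p G a) (hb : p F b = p G b) (hc : p F c = p G c) (hi : p F i = p G i)
    (hn : p F i ∉ A (p F a) (p F b) (p F c)) : F = G := by
  by_contra hne
  have h1 : p F a ∈ F ∩ G := mem_inter.2 ⟨(memF hp hF a).1, ha ▸ (memF hp hG a).1⟩
  have h2 : p F b ∈ F ∩ G := mem_inter.2 ⟨(memF hp hF b).1, hb ▸ (memF hp hG b).1⟩
  have h2' : p F c ∈ F ∩ G := mem_inter.2 ⟨(memF hp hF c).1, hc ▸ (memF hp hG c).1⟩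
  have h3 : p F i ∈ F ∩ G := mem_inter.2 ⟨(memF hp hF i).1, hi ▸ (memF hp hG i).1⟩
  rw [hL.inter F hF G hG hne _ h1 _ h2 _ h2' (neP hp hF hab) (neP hp hF hac)
    (neP hp hF hbc)] at h3
  exact hn h3

/-- the three faces of a tuple -/
structure Tq (M : Finset (Finset (Fin n))) (p : Finset (Fin n) → Fin 8 → Fin n)
    (x : Fin 5 → Fin n) (F : Fin 3 → Finset (Fin n)) : Prop where
  mem : ∀ i, F i ∈ M
  a0 : p (F 0) 0 = x 0
  a1 : p (F 0) 1 = x 1
  a2 : p (F 0) 2 = x 2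
  a4 : p (F 0) 4 = x 3
  b0 : p (F 1) 0 = x 0
  b1 : p (F 1) 1 = x 1
  b2 : p (F 1) 2 = x 2
  b6 : p (F 1) 6 = x 4
  c0 : p (F 2) 0 = x 0
  c1 : p (F 2) 1 = x 1
  c4 : p (F 2) 4 = x 3
  c6 : p (F 2) 6 = x 4

theorem determined (hL : Circ v f M A) (hp : ∀ F ∈ M, Vam A (p F) ∧ ∀ i, F ∩ S i = {p F i})
    {x x' : Fin 5 → Fin n} {F F' : Fin 3 → Finset (Fin n)} (h : Tq M p x F)
    (h' : Tq M p x' F') (e2 : x 2 = x' 2) (e3 : x 3 = x' 3) (e4 : x 4 = x' 4)
    (e : p (F 0) 3 = p (F' 0) 3) : x = x' := by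
  have fact : ∀ {x : Fin 5 → Fin n} {F : Fin 3 → Finset (Fin n)}, Tq M p x F →
      p (F 0) 3 = p (F 1) 3 ∧ p (F 0) 5 = p (F 2) 5 ∧ p (F 1) 7 = p (F 2) 7 := by
    intro x F h
    have m := h.mem
    have c := fun i => (hp _ (m i)).1
    refine ⟨?_, ?_, ?_⟩
    · exact keyK hL hp (m 0) (m 1) 0 1 2 3 (by decide) (by decide) (by decide)
        (by rw [h.a0, h.b0]) (by rw [h.a1, h.b1]) (by rw [h.a2, h.b2]) (c 0).c12
    · exact keyK hL hp (m 0) (m 2) 0 1 4 5 (by decide) (by decide) (by decide)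
        (by rw [h.a0, h.c0]) (by rw [h.a1, h.c1]) (by rw [h.a4, h.c4]) (c 0).c13
    · exact keyK hL hp (m 1) (m 2) 0 1 6 7 (by decide) (by decide) (by decide)
        (by rw [h.b0, h.c0]) (by rw [h.b1, h.c1]) (by rw [h.b6, h.c6]) (c 1).c14
  obtain ⟨f1, f2, f3⟩ := fact h
  obtain ⟨g1, g2, g3⟩ := fact h'
  have m := h.mem
  have m' := h'.mem
  have c := fun i => (hp _ (m i)).1
  have k5 : p (F 0) 5 = p (F' 0) 5 :=
    keyK hL hp (m 0) (m' 0) 2 3 4 5 (by decide) (by decide) (by decide)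
      (by rw [h.a2, h'.a2, e2]) e (by rw [h.a4, h'.a4, e3]) (c 0).c23
  have k7 : p (F 1) 7 = p (F' 1) 7 :=
    keyK hL hp (m 1) (m' 1) 2 3 6 7 (by decide) (by decide) (by decide)
      (by rw [h.b2, h'.b2, e2]) (by rw [← f1, e, g1]) (by rw [h.b6, h'.b6, e4]) (c 1).c24
  have hF : F 2 = F' 2 :=
    agree hL hp (m 2) (m' 2) 4 5 6 7 (by decide) (by decide) (by decide)
      (by rw [h.c4, h'.c4, e3]) (by rw [← f2, k5, g2]) (by rw [h.c6, h'.c6, e4])
      (by rw [← f3, k7, g3]) (c 2).n34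
  have x0 : x 0 = x' 0 := by rw [← h.c0, ← h'.c0, hF]
  have x1 : x 1 = x' 1 := by rw [← h.c1, ← h'.c1, hF]
  funext i
  fin_cases i
  · exact x0
  · exact x1
  · exact e2
  · exact e3
  · exact e4

/-- triples all of whose pairs are covered -/
def tri (t : Finset (Fin n × Fin n × Fin n)) : Finset (Fin n × Fin n × Fin n) :=
  univ.filter (fun x => (∃ c, (x.1, x.2.1, c) ∈ t) ∧ (∃ b, (x.1, b, x.2.2) ∈ t) ∧
    ∃ a, (a, x.2.1, x.2.2) ∈ t)

theorem tri_count (t : Finset (Fin n × Fin n × Fin n)) [ExplicitDisjoint t] {ε : ℝ}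
    (h : ε * (3 * n) ^ 2 ≤ t.card) :
    triangleRemovalBound ε * (3 * n) ^ 3 ≤ (tri t).card := by
  classical
  have hfar : (graph t).FarFromTriangleFree ε := by
    refine farFromTriangleFree t ?_
    rw [Fintype.card_fin]
    refine le_trans (le_of_eq ?_) h
    push_cast
    ring
  have h1 := hfar.le_card_cliqueFinset
  have hcard : (Fintype.card (Fin n ⊕ Fin n ⊕ Fin n) : ℝ) = 3 * n := by
    simp only [Fintype.card_sum, Fintype.card_fin]
    push_cast
    ring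
  rw [hcard] at h1
  refine h1.trans ?_
  have hsub : (graph t).cliqueFinset 3 ⊆ (tri t).map toTriangle := by
    intro s hs
    rw [mem_cliqueFinset_iff, SimpleGraph.is3Clique_iff] at hs
    obtain ⟨x, y, z, hxy, hxz, hyz, rfl⟩ := hs
    obtain ⟨a, b, c, habc, hab, hac, hbc⟩ := graph_triple hxy hxz hyz
    rw [mem_map]
    refine ⟨(a, b, c), ?_, habc⟩
    rw [tri, mem_filter]
    refine ⟨mem_univ _, ?_, ?_, ?_⟩
    · exact Graph.in₀₁_iff.1 hab
    · exact Graph.in₀₂_iff.1 hac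
    · exact Graph.in₁₂_iff.1 hbc
  have h2 := card_le_card hsub
  rw [card_map] at h2
  exact_mod_cast h2

end FewAux

open FewAux

theorem stFewV : StFewV := by
  classical
  intro v f c hc
  set δ : ℝ := triangleRemovalBound (min (c / 18) 1) with hδ
  have hc' : (0 : ℝ) < min (c / 18) 1 := by positivity
  have hδ0 : 0 < δ := triangleRemovalBound_pos hc'
  obtain ⟨N, hN⟩ := exists_nat_gt (2 / (27 * c * δ))
  refine ⟨max N 1, fun n hn M A hL p S hp => ?_⟩
  have hn1 : 1 ≤ n := le_trans (le_max_right _ _) hn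
  have hnN : N ≤ n := le_trans (le_max_left _ _) hn
  have hnpos : (0 : ℝ) < n := by exact_mod_cast hn1
  by_contra hcon
  rw [not_lt] at hcon
  -- the members through a pair
  set Mx : Fin n × Fin n → Finset (Finset (Fin n)) := fun x =>
    M.filter (fun F => p F 0 = x.1 ∧ p F 1 = x.2) with hMx
  have memMx : ∀ x F, F ∈ Mx x ↔ F ∈ M ∧ p F 0 = x.1 ∧ p F 1 = x.2 := by
    intro x F; simp [hMx]
  set t : Fin n × Fin n → Finset (Fin n × Fin n × Fin n) := fun x =>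
    (Mx x).image (fun F => (p F 2, p F 4, p F 6)) with ht
  have memt : ∀ x a b d, (a, b, d) ∈ t x ↔ ∃ F ∈ Mx x, p F 2 = a ∧ p F 4 = b ∧ p F 6 = d := by
    intro x a b d; simp [ht]
  have hFG : ∀ x, ∀ F ∈ Mx x, ∀ G ∈ Mx x, p F 0 = p G 0 ∧ p F 1 = p G 1 := by
    intro x F hF G hG
    have h1 := (memMx _ _).1 hF
    have h2 := (memMx _ _).1 hG
    exact ⟨h1.2.1.trans h2.2.1.symm, h1.2.2.trans h2.2.2.symm⟩
  have hinj2 : ∀ x, ∀ F ∈ Mx x, ∀ G ∈ Mx x, p F 2 = p G 2 → p F 4 = p G 4 → F = G := by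
    intro x F hF G hG h2 h4
    have h1 := ((memMx _ _).1 hF).1
    exact agree hL hp h1 ((memMx _ _).1 hG).1 0 1 2 4 (by decide) (by decide) (by decide)
      (hFG x F hF G hG).1 (hFG x F hF G hG).2 h2 h4 (hp F h1).1.n123
  have hdis : ∀ x, ExplicitDisjoint (t x) := by
    intro x
    refine ⟨?_, ?_, ?_⟩
    · intro a b d a' h1 h2
      obtain ⟨F, hF, rfl, rfl, rfl⟩ := (memt _ _ _ _).1 h1
      obtain ⟨G, hG, rfl, h4, h6⟩ := (memt _ _ _ _).1 h2
      have m1 := ((memMx _ _).1 hF).1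
      rw [agree hL hp m1 ((memMx _ _).1 hG).1 0 1 4 6 (by decide) (by decide) (by decide)
        (hFG x F hF G hG).1 (hFG x F hF G hG).2 h4.symm h6.symm (hp F m1).1.n134]
    · intro a b d b' h1 h2
      obtain ⟨F, hF, rfl, rfl, rfl⟩ := (memt _ _ _ _).1 h1
      obtain ⟨G, hG, h2', rfl, h6⟩ := (memt _ _ _ _).1 h2
      have m1 := ((memMx _ _).1 hF).1
      rw [agree hL hp m1 ((memMx _ _).1 hG).1 0 1 2 6 (by decide) (by decide) (by decide)
        (hFG x F hF G hG).1 (hFG x F hF G hG).2 h2'.symm h6.symm (hp F m1).1.n124]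
    · intro a b d d' h1 h2
      obtain ⟨F, hF, rfl, rfl, rfl⟩ := (memt _ _ _ _).1 h1
      obtain ⟨G, hG, h2', h4, rfl⟩ := (memt _ _ _ _).1 h2
      rw [hinj2 x F hF G hG h2'.symm h4.symm]
  have hcardt : ∀ x, (t x).card = (Mx x).card := by
    intro x
    refine card_image_of_injOn ?_
    intro F hF G hG h
    simp only [Prod.mk.injEq] at h
    exact hinj2 x F hF G hG h.1 h.2.1
  have hMxn : ∀ x, ((Mx x).card : ℝ) ≤ (n : ℝ) ^ 2 := by
    intro x
    have h1 : (Mx x).card ≤ (univ : Finset (Fin n × Fin n)).card := by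
      refine card_le_card_of_injOn (fun F => (p F 2, p F 4)) (fun _ _ => mem_univ _) ?_
      intro F hF G hG h
      simp only [Prod.mk.injEq] at h
      exact hinj2 x F hF G hG h.1 h.2
    rw [card_univ, Fintype.card_prod, Fintype.card_fin] at h1
    have h2 : ((Mx x).card : ℝ) ≤ ((n * n : ℕ) : ℝ) := by exact_mod_cast h1
    push_cast at h2
    linarith [sq (n : ℝ)]
  -- total count
  have hsum : (M.card : ℝ) = ∑ x : Fin n × Fin n, ((Mx x).card : ℝ) := by
    have h1 : M.card = ∑ x : Fin n × Fin n, (Mx x).card := by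
      rw [card_eq_sum_card_fiberwise (f := fun F => (p F 0, p F 1)) (t := univ)
        (fun _ _ => mem_univ _)]
      refine sum_congr rfl fun x _ => ?_
      congr 1
      ext F
      simp only [mem_filter, memMx, Prod.ext_iff]
    exact_mod_cast h1
  -- tuples
  set X : Finset ((Fin n × Fin n) × (Fin n × Fin n × Fin n)) :=
    univ.filter (fun y => y.2 ∈ tri (t y.1)) with hX
  have hXsum : (X.card : ℝ) = ∑ x : Fin n × Fin n, ((tri (t x)).card : ℝ) := by
    have h1 : X.card = ∑ x : Fin n × Fin n, (tri (t x)).card := by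
      rw [card_eq_sum_card_fiberwise (f := fun y => y.1) (t := univ) (fun _ _ => mem_univ _)]
      refine sum_congr rfl fun x _ => ?_
      refine card_bij (fun y _ => y.2) ?_ ?_ ?_
      · intro y hy
        rw [mem_filter, hX, mem_filter] at hy
        rw [← hy.2]
        exact hy.1.2
      · intro y hy z hz h
        rw [mem_filter] at hy hz
        exact Prod.ext (hy.2.trans hz.2.symm) h
      · intro b hb
        exact ⟨(x, b), by rw [mem_filter, hX, mem_filter]; exact ⟨⟨mem_univ _, hb⟩, rfl⟩, rfl⟩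
    exact_mod_cast h1
  -- lower bound for the tuples
  have hlow : ∀ x : Fin n × Fin n,
      27 * δ * (n : ℝ) * ((Mx x).card - c / 2 * (n : ℝ) ^ 2) ≤ (tri (t x)).card := by
    intro x
    by_cases hx : c / 2 * (n : ℝ) ^ 2 ≤ (Mx x).card
    · have h1 : min (c / 18) 1 * (3 * (n : ℝ)) ^ 2 ≤ (t x).card := by
        rw [hcardt]
        refine le_trans ?_ hx
        have h2 : min (c / 18) 1 ≤ c / 18 := min_le_left _ _
        have h3 : min (c / 18) 1 * (3 * (n : ℝ)) ^ 2 ≤ c / 18 * (3 * (n : ℝ)) ^ 2 :=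
          mul_le_mul_of_nonneg_right h2 (by positivity)
        refine h3.trans (le_of_eq ?_)
        ring
      have := hdis x
      have h2 := tri_count (t x) h1
      refine le_trans ?_ h2
      have h3 : ((Mx x).card - c / 2 * (n : ℝ) ^ 2 : ℝ) ≤ (n : ℝ) ^ 2 := by
        have := hMxn x
        have h4 : 0 ≤ c / 2 * (n : ℝ) ^ 2 := by positivity
        linarith
      have h4 : 27 * δ * (n : ℝ) * ((Mx x).card - c / 2 * (n : ℝ) ^ 2) ≤
          27 * δ * (n : ℝ) * (n : ℝ) ^ 2 := mul_le_mul_of_nonneg_left h3 (by positivity)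
      refine h4.trans (le_of_eq ?_)
      rw [← hδ]
      ring
    · push Not at hx
      have h1 : 27 * δ * (n : ℝ) * ((Mx x).card - c / 2 * (n : ℝ) ^ 2) ≤ 0 :=
        mul_nonpos_of_nonneg_of_nonpos (by positivity) (by linarith)
      exact h1.trans (Nat.cast_nonneg _)
  have hXlow : 27 * δ * c / 2 * (n : ℝ) ^ 5 ≤ X.card := by
    rw [hXsum]
    have h1 := sum_le_sum (fun x (_ : x ∈ (univ : Finset (Fin n × Fin n))) => hlow x)
    refine le_trans ?_ h1
    rw [← mul_sum, sum_sub_distrib, ← hsum, sum_const, card_univ, Fintype.card_prod,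
      Fintype.card_fin, nsmul_eq_mul]
    push_cast
    have h2 : c / 2 * (n : ℝ) ^ 4 ≤ (M.card : ℝ) - (n : ℝ) * n * (c / 2 * (n : ℝ) ^ 2) := by
      nlinarith
    have h3 : 27 * δ * (n : ℝ) * (c / 2 * (n : ℝ) ^ 4) ≤
        27 * δ * (n : ℝ) * ((M.card : ℝ) - (n : ℝ) * n * (c / 2 * (n : ℝ) ^ 2)) :=
      mul_le_mul_of_nonneg_left h2 (by positivity)
    refine le_trans (le_of_eq ?_) h3
    ring
  -- upper bound for the tuples
  have hfaces : ∀ y ∈ X, ∃ F, Tq M p ![y.1.1, y.1.2, y.2.1, y.2.2.1, y.2.2.2] F := by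
    intro y hy
    rw [hX, mem_filter, tri, mem_filter] at hy
    obtain ⟨-, -, ⟨c1, h1⟩, ⟨b1, h2⟩, ⟨a1, h3⟩⟩ := hy
    obtain ⟨F0, hF0, e1, e2, -⟩ := (memt _ _ _ _).1 h1
    obtain ⟨F1, hF1, e3, -, e4⟩ := (memt _ _ _ _).1 h2
    obtain ⟨F2, hF2, -, e5, e6⟩ := (memt _ _ _ _).1 h3
    have m0 := (memMx _ _).1 hF0
    have m1 := (memMx _ _).1 hF1
    have m2 := (memMx _ _).1 hF2
    refine ⟨![F0, F1, F2], ?_, m0.2.1, m0.2.2, e1, e2, m1.2.1, m1.2.2, e3, e4, m2.2.1, m2.2.2,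
      e5, e6⟩
    intro i
    fin_cases i
    · exact m0.1
    · exact m1.1
    · exact m2.1
  choose! F hF using hfaces
  have hcard : X.card ≤ (univ : Finset (Fin n × Fin n × Fin n × Fin n)).card := by
    refine card_le_card_of_injOn (fun y => (y.2.1, y.2.2.1, y.2.2.2, p (F y 0) 3))
      (fun _ _ => mem_univ _) ?_
    intro y hy z hz hyz
    simp only [Prod.mk.injEq] at hyz
    have h1 := determined hL hp (hF y hy) (hF z hz) hyz.1 hyz.2.1 hyz.2.2.1 hyz.2.2.2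
    have g0 : y.1.1 = z.1.1 := congrFun h1 0
    have g1 : y.1.2 = z.1.2 := congrFun h1 1
    exact Prod.ext (Prod.ext g0 g1) (Prod.ext hyz.1 (Prod.ext hyz.2.1 hyz.2.2.1))
  rw [card_univ, Fintype.card_prod, Fintype.card_prod, Fintype.card_prod,
    Fintype.card_fin] at hcard
  have h3 : (X.card : ℝ) ≤ ((n * (n * (n * n)) : ℕ) : ℝ) := by exact_mod_cast hcard
  push_cast at h3
  have h4 : 27 * δ * c / 2 * (n : ℝ) ^ 5 ≤ (n : ℝ) ^ 4 := by
    refine (hXlow.trans h3).trans (le_of_eq ?_)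
    ring
  have h5 : 2 / (27 * c * δ) < n := by
    refine hN.trans_le ?_
    exact_mod_cast hnN
  rw [div_lt_iff₀ (by positivity)] at h5
  have h6 : (1 : ℝ) < 27 * δ * c / 2 * n := by
    nlinarith
  have h7 : (0 : ℝ) < (n : ℝ) ^ 4 := by positivity
  have h8 : (n : ℝ) ^ 4 < 27 * δ * c / 2 * n * (n : ℝ) ^ 4 := by
    nlinarith
  have h9 : 27 * δ * c / 2 * (n : ℝ) * (n : ℝ) ^ 4 = 27 * δ * c / 2 * (n : ℝ) ^ 5 := by ring
  linarith

end Pool.Agent.Lib.MP_5cdc53_co.VM
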