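import Mathlib

/-!
# Definitions used by the final statement (helper45)
-/

set_option autoImplicit false

namespace Pool.Agent.Lib.MP_5cdc53_co

/-- The subsets `B` of `Fin v` form a Steiner system `S(3, f, v)` (blocks of size `f`, every
three points in exactly one block) with the bundle property: if `P 0, P 1, P 2, P 3` are
disjoint pairs of points and five of the six sets `P i ∪ P j` (all but `P 2 ∪ P 3`) lie in
blocks, then `P 2 ∪ P 3` lies in a block as well, unless `P 0 ∪ P 1 ∪ P 2` or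
`P 0 ∪ P 1 ∪ P 3` lies in a block. -/
def BundleSystem (v f : ℕ) (B : Finset (Finset (Fin v))) : Prop :=
  (∀ b ∈ B, b.card = f) ∧
  (∀ t : Finset (Fin v), t.card = 3 → ∃! b, b ∈ B ∧ t ⊆ b) ∧
  ∀ P : Fin 4 → Finset (Fin v), (∀ i, (P i).card = 2) → (∀ i j, i ≠ j → Disjoint (P i) (P j)) →
    (∀ i j, i < j → ¬ (i = 2 ∧ j = 3) → ∃ b ∈ B, P i ∪ P j ⊆ b) →
    (∃ b ∈ B, P 0 ∪ P 1 ∪ P 2 ⊆ b) ∨ (∃ b ∈ B, P 0 ∪ P 1 ∪ P 3 ⊆ b) ∨ ∃ b ∈ B, P 2 ∪ P 3 ⊆ b

/-- there is a Steiner system `S(3, f, v)` with the bundle property -/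
def HasBundle (v f : ℕ) : Prop := ∃ B : Finset (Finset (Fin v)), BundleSystem v f B

/-- `Type5 f v k L`: the set `L ∪ {k}` has five consecutive elements `a < b < c < e < g`
(`a, b, c, e` in `L`) whose differences are those of the numbers `0, 1, 2, f, v`, multiplied by
`b - a`. -/
def Type5 (f v k : ℕ) (L : Finset ℕ) : Prop :=
  ∃ a ∈ L, ∃ b ∈ L, ∃ c ∈ L, ∃ e ∈ L, ∃ g ∈ insert k L, a < b ∧ b < c ∧ c < e ∧ e < g ∧
    (∀ x ∈ insert k L, a ≤ x → x ≤ g → x = a ∨ x = b ∨ x = c ∨ x = e ∨ x = g) ∧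
    c - a = 2 * (b - a) ∧ e - a = f * (b - a) ∧ g - a = v * (b - a)

end Pool.Agent.Lib.MP_5cdc53_co
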