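import Pool.Agent.Lib.MP_5cdc53_co.VM.Stmts
import Pool.Agent.Lib.MP_5cdc53_co.VM.FinalDefs

/-!
# Steiner systems with the bundle property and designs without Vamos configurations
-/

set_option autoImplicit false

namespace Pool.Agent.Lib.MP_5cdc53_co.VM

open Finset

/-- a design without a Vamos configuration gives a Steiner system with the bundle property -/
theorem hasBundle_of_design {n v f : ℕ} {P : Finset (Fin n)}
    {A : Fin n → Fin n → Fin n → Finset (Fin n)} (h : Is3D P A v f)
    (hno : ∀ p : Fin 8 → Fin n, (∀ i, p i ∈ P) → ¬ Vam A p) : HasBundle v f := by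
  classical
  have e : P ≃ Fin v := Fintype.equivFinOfCardEq (by rw [Fintype.card_coe, h.card])
  set g : Fin v → Fin n := fun i => (e.symm i).1 with hg
  have gP : ∀ i, g i ∈ P := fun i => (e.symm i).2
  have ginj : Function.Injective g := fun i j hij => e.symm.injective (Subtype.ext hij)
  have gsurj : ∀ x ∈ P, ∃ i, g i = x := fun x hx => ⟨e ⟨x, hx⟩, by simp [hg]⟩
  have gne : ∀ {i j}, i ≠ j → g i ≠ g j := fun hij he => hij (ginj he)
  set A' : Fin v → Fin v → Fin v → Finset (Fin v) := fun i j k =>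
    univ.filter (fun t => g t ∈ A (g i) (g j) (g k)) with hA'
  have memA' : ∀ i j k t, t ∈ A' i j k ↔ g t ∈ A (g i) (g j) (g k) := by
    intro i j k t; simp [hA']
  have hcard : ∀ i j k, i ≠ j → i ≠ k → j ≠ k → (A' i j k).card = f := by
    intro i j k hij hik hjk
    obtain ⟨-, -, -, h4, h5, -⟩ := h.circ _ (gP i) _ (gP j) _ (gP k) (gne hij) (gne hik) (gne hjk)
    rw [← h5]
    refine card_bij (fun t _ => g t) ?_ ?_ ?_
    · intro t ht
      exact (memA' _ _ _ _).1 ht
    · intro t _ u _ htu
      exact ginj htu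
    · intro x hx
      obtain ⟨t, rfl⟩ := gsurj x (h4 hx)
      exact ⟨t, (memA' _ _ _ _).2 hx, rfl⟩
  have heq : ∀ i j k u w t, i ≠ j → i ≠ k → j ≠ k → u ∈ A' i j k → w ∈ A' i j k →
      t ∈ A' i j k → u ≠ w → u ≠ t → w ≠ t → A' u w t = A' i j k := by
    intro i j k u w t hij hik hjk hu hw ht huw hut hwt
    have h6 := (h.circ _ (gP i) _ (gP j) _ (gP k) (gne hij) (gne hik) (gne hjk)).2.2.2.2.2
      _ ((memA' _ _ _ _).1 hu) _ ((memA' _ _ _ _).1 hw) _ ((memA' _ _ _ _).1 ht) (gne huw)
      (gne hut) (gne hwt)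
    ext s
    rw [memA', memA', h6]
  have hself : ∀ i j k, i ≠ j → i ≠ k → j ≠ k → i ∈ A' i j k ∧ j ∈ A' i j k ∧ k ∈ A' i j k := by
    intro i j k hij hik hjk
    obtain ⟨h1, h2, h3, -⟩ := h.circ _ (gP i) _ (gP j) _ (gP k) (gne hij) (gne hik) (gne hjk)
    exact ⟨(memA' _ _ _ _).2 h1, (memA' _ _ _ _).2 h2, (memA' _ _ _ _).2 h3⟩
  set B : Finset (Finset (Fin v)) := univ.filter (fun b => ∃ i j k, i ≠ j ∧ i ≠ k ∧ j ≠ k ∧
    A' i j k = b) with hB
  have memB : ∀ b, b ∈ B ↔ ∃ i j k, i ≠ j ∧ i ≠ k ∧ j ≠ k ∧ A' i j k = b := by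
    intro b; simp [hB]
  -- a block through three points is the circle
  have hblk : ∀ b ∈ B, ∀ x y z, x ∈ b → y ∈ b → z ∈ b → x ≠ y → x ≠ z → y ≠ z →
      A' x y z = b := by
    intro b hb x y z hx hy hz hxy hxz hyz
    obtain ⟨i, j, k, h1, h2, h3, rfl⟩ := (memB b).1 hb
    exact heq i j k x y z h1 h2 h3 hx hy hz hxy hxz hyz
  refine ⟨B, ?_, ?_, ?_⟩
  · intro b hb
    obtain ⟨i, j, k, h1, h2, h3, rfl⟩ := (memB b).1 hb
    exact hcard i j k h1 h2 h3
  · intro t ht
    obtain ⟨x, y, z, hxy, hxz, hyz, rfl⟩ := card_eq_three.1 ht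
    refine ⟨A' x y z, ⟨(memB _).2 ⟨x, y, z, hxy, hxz, hyz, rfl⟩, ?_⟩, ?_⟩
    · obtain ⟨h1, h2, h3⟩ := hself x y z hxy hxz hyz
      intro w hw
      simp only [mem_insert, mem_singleton] at hw
      rcases hw with rfl | rfl | rfl
      · exact h1
      · exact h2
      · exact h3
    · rintro b ⟨hb, hsub⟩
      exact (hblk b hb x y z (hsub (by simp)) (hsub (by simp)) (hsub (by simp)) hxy hxz
        hyz).symm
  · intro Q hQ hdis hcop
    have hxy : ∀ i, ∃ x y, x ≠ y ∧ Q i = {x, y} := fun i => card_eq_two.1 (hQ i)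
    choose x y hne hQeq using hxy
    have xQ : ∀ i, x i ∈ Q i := fun i => by rw [hQeq]; simp
    have yQ : ∀ i, y i ∈ Q i := fun i => by rw [hQeq]; simp
    have dxx : ∀ i j, i ≠ j → x i ≠ x j := fun i j hij he =>
      disjoint_left.1 (hdis i j hij) (xQ i) (he ▸ xQ j)
    have dxy : ∀ i j, i ≠ j → x i ≠ y j := fun i j hij he =>
      disjoint_left.1 (hdis i j hij) (xQ i) (he ▸ yQ j)
    have dyx : ∀ i j, i ≠ j → y i ≠ x j := fun i j hij he =>
      disjoint_left.1 (hdis i j hij) (yQ i) (he ▸ xQ j)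
    have dyy : ∀ i j, i ≠ j → y i ≠ y j := fun i j hij he =>
      disjoint_left.1 (hdis i j hij) (yQ i) (he ▸ yQ j)
    have key : ∀ i j, i ≠ j → (∃ b ∈ B, Q i ∪ Q j ⊆ b) → y j ∈ A' (x i) (y i) (x j) := by
      rintro i j hij ⟨b, hb, hsub⟩
      rw [hblk b hb (x i) (y i) (x j) (hsub (mem_union_left _ (xQ i)))
        (hsub (mem_union_left _ (yQ i))) (hsub (mem_union_right _ (xQ j))) (hne i)
        (dxx i j hij) (dyx i j hij)]
      exact hsub (mem_union_right _ (yQ j))
    have c01 := key 0 1 (by decide) (hcop 0 1 (by decide) (by decide))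
    have c02 := key 0 2 (by decide) (hcop 0 2 (by decide) (by decide))
    have c03 := key 0 3 (by decide) (hcop 0 3 (by decide) (by decide))
    have c12 := key 1 2 (by decide) (hcop 1 2 (by decide) (by decide))
    have c13 := key 1 3 (by decide) (hcop 1 3 (by decide) (by decide))
    have inB : ∀ i j, i ≠ j → A' (x i) (y i) (x j) ∈ B := fun i j hij =>
      (memB _).2 ⟨_, _, _, hne i, dxx i j hij, dyx i j hij, rfl⟩
    have sub : ∀ (i : Fin 4) (b : Finset (Fin v)), x i ∈ b → y i ∈ b → Q i ⊆ b := by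
      intro i b h1 h2 t ht
      rw [hQeq, mem_insert, mem_singleton] at ht
      rcases ht with rfl | rfl
      · exact h1
      · exact h2
    have self := fun i j (hij : i ≠ j) => hself (x i) (y i) (x j) (hne i) (dxx i j hij)
      (dyx i j hij)
    by_cases n1 : x 2 ∈ A' (x 0) (y 0) (x 1)
    · left
      refine ⟨_, inB 0 1 (by decide), ?_⟩
      have h1 := heq (x 0) (y 0) (x 1) (x 0) (y 0) (x 2) (hne 0) (dxx 0 1 (by decide))
        (dyx 0 1 (by decide)) (self 0 1 (by decide)).1 (self 0 1 (by decide)).2.1 n1 (hne 0)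
        (dxx 0 2 (by decide)) (dyx 0 2 (by decide))
      refine union_subset (union_subset (sub 0 _ (self 0 1 (by decide)).1
        (self 0 1 (by decide)).2.1) (sub 1 _ (self 0 1 (by decide)).2.2 c01)) (sub 2 _ n1 ?_)
      rw [← h1]
      exact c02
    by_cases n2 : x 3 ∈ A' (x 0) (y 0) (x 1)
    · right; left
      refine ⟨_, inB 0 1 (by decide), ?_⟩
      have h1 := heq (x 0) (y 0) (x 1) (x 0) (y 0) (x 3) (hne 0) (dxx 0 1 (by decide))
        (dyx 0 1 (by decide)) (self 0 1 (by decide)).1 (self 0 1 (by decide)).2.1 n2 (hne 0)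
        (dxx 0 3 (by decide)) (dyx 0 3 (by decide))
      refine union_subset (union_subset (sub 0 _ (self 0 1 (by decide)).1
        (self 0 1 (by decide)).2.1) (sub 1 _ (self 0 1 (by decide)).2.2 c01)) (sub 3 _ n2 ?_)
      rw [← h1]
      exact c03
    right; right
    by_cases n3 : x 3 ∈ A' (x 0) (y 0) (x 2)
    · refine ⟨_, inB 0 2 (by decide), ?_⟩
      have h1 := heq (x 0) (y 0) (x 2) (x 0) (y 0) (x 3) (hne 0) (dxx 0 2 (by decide))
        (dyx 0 2 (by decide)) (self 0 2 (by decide)).1 (self 0 2 (by decide)).2.1 n3 (hne 0)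
        (dxx 0 3 (by decide)) (dyx 0 3 (by decide))
      refine union_subset (sub 2 _ (self 0 2 (by decide)).2.2 c02) (sub 3 _ n3 ?_)
      rw [← h1]
      exact c03
    by_cases n4 : y 3 ∈ A' (x 2) (y 2) (x 3)
    · exact ⟨_, inB 2 3 (by decide), union_subset (sub 2 _ (self 2 3 (by decide)).1
        (self 2 3 (by decide)).2.1) (sub 3 _ (self 2 3 (by decide)).2.2 n4)⟩
    · exfalso
      refine hno ![g (x 0), g (y 0), g (x 1), g (y 1), g (x 2), g (y 2), g (x 3), g (y 3)] ?_
        ⟨?_, (memA' _ _ _ _).1 c01, (memA' _ _ _ _).1 c02, (memA' _ _ _ _).1 c03,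
        (memA' _ _ _ _).1 c12, (memA' _ _ _ _).1 c13, fun h1 => n1 ((memA' _ _ _ _).2 h1),
        fun h1 => n2 ((memA' _ _ _ _).2 h1), fun h1 => n3 ((memA' _ _ _ _).2 h1),
        fun h1 => n4 ((memA' _ _ _ _).2 h1)⟩
      · intro i
        fin_cases i <;> exact gP _
      · have a0 := hne 0; have a1 := hne 1; have a2 := hne 2; have a3 := hne 3
        have b01 := dxx 0 1 (by decide); have b02 := dxx 0 2 (by decide)
        have b03 := dxx 0 3 (by decide); have b12 := dxx 1 2 (by decide)
        have b13 := dxx 1 3 (by decide); have b23 := dxx 2 3 (by decide)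
        have d01 := dyy 0 1 (by decide); have d02 := dyy 0 2 (by decide)
        have d03 := dyy 0 3 (by decide); have d12 := dyy 1 2 (by decide)
        have d13 := dyy 1 3 (by decide); have d23 := dyy 2 3 (by decide)
        have e01 := dxy 0 1 (by decide); have e02 := dxy 0 2 (by decide)
        have e03 := dxy 0 3 (by decide); have e12 := dxy 1 2 (by decide)
        have e13 := dxy 1 3 (by decide); have e23 := dxy 2 3 (by decide)
        have f01 := dyx 0 1 (by decide); have f02 := dyx 0 2 (by decide)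
        have f03 := dyx 0 3 (by decide); have f12 := dyx 1 2 (by decide)
        have f13 := dyx 1 3 (by decide); have f23 := dyx 2 3 (by decide)
        intro i j hij
        fin_cases i <;> fin_cases j <;>
          first
            | rfl
            | (exfalso; have hij' := ginj hij;
                first | exact absurd hij' (by assumption) | exact absurd hij'.symm (by assumption))

/-- a Steiner system with the bundle property gives a design without Vamos configurations -/
theorem design_of_hasBundle {v f : ℕ} (h : HasBundle v f) :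
    ∃ A : Fin v → Fin v → Fin v → Finset (Fin v), Is3D univ A v f ∧
      ∀ p : Fin 8 → Fin v, ¬ Vam A p := by
  classical
  obtain ⟨B, hB1, hB2, hB3⟩ := h
  have hex : ∀ x y z : Fin v, ∃ b : Finset (Fin v), x ≠ y → x ≠ z → y ≠ z →
      b ∈ B ∧ ({x, y, z} : Finset (Fin v)) ⊆ b := by
    intro x y z
    by_cases hh : x ≠ y ∧ x ≠ z ∧ y ≠ z
    · obtain ⟨b, hb, -⟩ := hB2 {x, y, z} (card_eq_three.2 ⟨x, y, z, hh.1, hh.2.1, hh.2.2, rfl⟩)
      exact ⟨b, fun _ _ _ => hb⟩
    · exact ⟨∅, fun h1 h2 h3 => absurd ⟨h1, h2, h3⟩ hh⟩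
  choose A hA using hex
  have huniq : ∀ x y z, x ≠ y → x ≠ z → y ≠ z → ∀ b ∈ B, x ∈ b → y ∈ b → z ∈ b →
      A x y z = b := by
    intro x y z hxy hxz hyz b hb hx hy hz
    have h1 := hB2 {x, y, z} (card_eq_three.2 ⟨x, y, z, hxy, hxz, hyz, rfl⟩)
    refine h1.unique (hA x y z hxy hxz hyz) ⟨hb, ?_⟩
    intro w hw
    simp only [mem_insert, mem_singleton] at hw
    rcases hw with rfl | rfl | rfl
    · exact hx
    · exact hy
    · exact hz
  refine ⟨A, ⟨by simp, ?_⟩, ?_⟩
  · intro x _ y _ z _ hxy hxz hyz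
    have h1 := hA x y z hxy hxz hyz
    refine ⟨h1.2 (by simp), h1.2 (by simp), h1.2 (by simp), subset_univ _, hB1 _ h1.1, ?_⟩
    intro u hu w hw t ht huw hut hwt
    exact huniq u w t huw hut hwt _ h1.1 hu hw ht
  · intro p V
    have ne : ∀ i j : Fin 8, i ≠ j → p i ≠ p j := fun i j hij he => hij (V.inj he)
    -- circles as blocks
    have hc : ∀ i j k l : Fin 8, i ≠ j → i ≠ k → j ≠ k → p l ∈ A (p i) (p j) (p k) →
        ∃ b ∈ B, ({p i, p j} : Finset (Fin v)) ∪ {p k, p l} ⊆ b := by
      intro i j k l hij hik hjk hl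
      have h1 := hA _ _ _ (ne i j hij) (ne i k hik) (ne j k hjk)
      refine ⟨_, h1.1, ?_⟩
      intro w hw
      simp only [mem_union, mem_insert, mem_singleton] at hw
      rcases hw with (rfl | rfl) | (rfl | rfl)
      · exact h1.2 (by simp)
      · exact h1.2 (by simp)
      · exact h1.2 (by simp)
      · exact hl
    have h5 := hB3 ![{p 0, p 1}, {p 2, p 3}, {p 4, p 5}, {p 6, p 7}] ?_ ?_ ?_
    · rcases h5 with ⟨b, hb, hsub⟩ | ⟨b, hb, hsub⟩ | ⟨b, hb, hsub⟩
      · apply V.n123
        have hsub' : ({p 0, p 1} : Finset (Fin v)) ∪ {p 2, p 3} ∪ {p 4, p 5} ⊆ b := hsub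
        rw [huniq _ _ _ (ne 0 1 (by decide)) (ne 0 2 (by decide)) (ne 1 2 (by decide)) b hb
          (hsub' (by simp)) (hsub' (by simp)) (hsub' (by simp))]
        exact hsub' (by simp)
      · apply V.n124
        have hsub' : ({p 0, p 1} : Finset (Fin v)) ∪ {p 2, p 3} ∪ {p 6, p 7} ⊆ b := hsub
        rw [huniq _ _ _ (ne 0 1 (by decide)) (ne 0 2 (by decide)) (ne 1 2 (by decide)) b hb
          (hsub' (by simp)) (hsub' (by simp)) (hsub' (by simp))]
        exact hsub' (by simp)
      · apply V.n34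
        have hsub' : ({p 4, p 5} : Finset (Fin v)) ∪ {p 6, p 7} ⊆ b := hsub
        rw [huniq _ _ _ (ne 4 5 (by decide)) (ne 4 6 (by decide)) (ne 5 6 (by decide)) b hb
          (hsub' (by simp)) (hsub' (by simp)) (hsub' (by simp))]
        exact hsub' (by simp)
    · intro i
      fin_cases i
      · exact card_pair (ne 0 1 (by decide))
      · exact card_pair (ne 2 3 (by decide))
      · exact card_pair (ne 4 5 (by decide))
      · exact card_pair (ne 6 7 (by decide))
    · have hd : ∀ i j k l : Fin 8, i ≠ k → i ≠ l → j ≠ k → j ≠ l →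
          Disjoint ({p i, p j} : Finset (Fin v)) {p k, p l} := by
        intro i j k l h1 h2 h3 h4
        rw [disjoint_left]
        intro w hw hw'
        simp only [mem_insert, mem_singleton] at hw hw'
        rcases hw with rfl | rfl <;> rcases hw' with h | h
        · exact ne _ _ h1 h
        · exact ne _ _ h2 h
        · exact ne _ _ h3 h
        · exact ne _ _ h4 h
      intro i j hij
      fin_cases i <;> fin_cases j <;> first
        | exact absurd rfl hij
        | exact hd 0 1 2 3 (by decide) (by decide) (by decide) (by decide)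
        | exact hd 0 1 4 5 (by decide) (by decide) (by decide) (by decide)
        | exact hd 0 1 6 7 (by decide) (by decide) (by decide) (by decide)
        | exact hd 2 3 0 1 (by decide) (by decide) (by decide) (by decide)
        | exact hd 2 3 4 5 (by decide) (by decide) (by decide) (by decide)
        | exact hd 2 3 6 7 (by decide) (by decide) (by decide) (by decide)
        | exact hd 4 5 0 1 (by decide) (by decide) (by decide) (by decide)
        | exact hd 4 5 2 3 (by decide) (by decide) (by decide) (by decide)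
        | exact hd 4 5 6 7 (by decide) (by decide) (by decide) (by decide)
        | exact hd 6 7 0 1 (by decide) (by decide) (by decide) (by decide)
        | exact hd 6 7 2 3 (by decide) (by decide) (by decide) (by decide)
        | exact hd 6 7 4 5 (by decide) (by decide) (by decide) (by decide)
    · intro i j hij hne
      fin_cases i <;> fin_cases j <;> first
        | exact absurd hij (by decide)
        | exact absurd ⟨rfl, rfl⟩ hne
        | exact hc 0 1 2 3 (by decide) (by decide) (by decide) V.c12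
        | exact hc 0 1 4 5 (by decide) (by decide) (by decide) V.c13
        | exact hc 0 1 6 7 (by decide) (by decide) (by decide) V.c14
        | exact hc 2 3 4 5 (by decide) (by decide) (by decide) V.c23
        | exact hc 2 3 6 7 (by decide) (by decide) (by decide) V.c24

end Pool.Agent.Lib.MP_5cdc53_co.VM
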