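import Pool.Agent.Lib.MP_5cdc53_co.VM.Stmts
import Pool.Agent.Lib.MP_5cdc53_co.VM.Bundle
import Pool.Agent.Lib.MP_5cdc53_co.PP.Stmts3
import Pool.Agent.Lib.MP_5cdc53_co.PP.Final

/-!
# VM/Final: the final statement from the module statements (helper45)
-/

set_option autoImplicit false

namespace Pool.Agent.Lib.MP_5cdc53_co.VM

open Finset PP

theorem noWG_of_noBundle (hN : StNoWG) {v f : ℕ} (hf : 3 ≤ f) (hfv : f < v)
    (h : ¬ HasBundle v f) : ¬ WG v {0, 1, 2, f} := by
  refine hN v f hf hfv fun n P A hD => ?_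
  by_contra hno
  push Not at hno
  exact h (hasBundle_of_design hD hno)

theorem noBundle_ext (hV : StVExt) {q : ℕ} (hq : 3 ≤ q) :
    ¬ HasBundle (q ^ 2 + q + 2) (q + 2) := by
  intro h
  obtain ⟨A, hA, hno⟩ := design_of_hasBundle h
  obtain ⟨p, -, hp⟩ := hV (Fin (q ^ 2 + q + 2)) univ A q hq hA
  exact hno p hp

/-- weak growth excludes a forbidden type -/
theorem noWG_red (hR : StRed5) {k : ℕ} {L : Finset ℕ} (hL : ∀ l ∈ L, l < k) {f v : ℕ}
    (hf : 3 ≤ f → f < v → ¬ WG v {0, 1, 2, f}) (h : Type5 f v k L) : ¬ WG k L := by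
  obtain ⟨a, ha, b, hb, c, hc, e, he, g, hg, hab, hbc, hce, heg, hcons, h1, h2, h3⟩ := h
  intro hW
  obtain ⟨v', h4, h5⟩ := hR k L a b c e g 2 f hL ha hb hc he hg hab hbc hce heg hcons h1 h2 hW
  have h6 : v' = v := by
    have h7 : v' * (b - a) = v * (b - a) := by rw [← h4, h3]
    exact Nat.eq_of_mul_eq_mul_right (by omega) h7
  refine hf ?_ ?_ (h6 ▸ h5)
  · by_contra hlt
    have : f * (b - a) ≤ 2 * (b - a) := Nat.mul_le_mul_right _ (by omega)
    omega
  · by_contra hlt
    have : v * (b - a) ≤ f * (b - a) := Nat.mul_le_mul_right _ (by omega)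
    omega

theorem final_bundle (hN : StNoWG) (hR : StRed5) :
    ∀ (f v k : ℕ) (L : Finset ℕ), (∀ l ∈ L, l < k) → Type5 f v k L → ¬ HasBundle v f →
      Filter.Tendsto (fun n : ℕ => (m n k L : ℝ) / (n : ℝ) ^ L.card) Filter.atTop (nhds 0) :=
  fun _ _ _ _ hL hT hB =>
    final_tendsto (noWG_red hR hL (fun hf hfv => noWG_of_noBundle hN hf hfv hB) hT)

theorem final_iff (hN : StNoWG) (hV : StVExt) (hFG : StFG) (hAG : StAG) :
    ∀ q : ℕ, 2 ≤ q → (FullGrowth (q ^ 2 + q + 2) {0, 1, 2, q + 2} ↔ q = 2) := by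
  intro q hq
  constructor
  · intro h
    by_contra hne
    exact noWG_of_noBundle hN (by omega) (by nlinarith)
      (noBundle_ext hV (by omega : 3 ≤ q)) (hFG _ _ h)
  · rintro rfl
    have h := hAG 2 3 3 (Nat.Prime.isPrimePow Nat.prime_two) (by norm_num) (by norm_num)
    have e : (insert 0 ((range 3).image (fun i => 2 ^ i)) : Finset ℕ) = {0, 1, 2, 2 + 2} := by
      decide
    rw [e] at h
    exact h

/-- the Witt designs -/
theorem final_witt (h : ∀ (f v k : ℕ) (L : Finset ℕ), (∀ l ∈ L, l < k) → Type5 f v k L →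
      ¬ HasBundle v f →
      Filter.Tendsto (fun n : ℕ => (m n k L : ℝ) / (n : ℝ) ^ L.card) Filter.atTop (nhds 0))
    (h22 : ¬ HasBundle 22 6) :
    Filter.Tendsto (fun n : ℕ => (m n 22 {0, 1, 2, 6} : ℝ) / (n : ℝ) ^ 4)
      Filter.atTop (nhds 0) ∧
    Filter.Tendsto (fun n : ℕ => (m n 23 {0, 1, 2, 3, 7} : ℝ) / (n : ℝ) ^ 5)
      Filter.atTop (nhds 0) ∧
    Filter.Tendsto (fun n : ℕ => (m n 24 {0, 1, 2, 3, 4, 8} : ℝ) / (n : ℝ) ^ 6)
      Filter.atTop (nhds 0) := by
  refine ⟨?_, ?_, ?_⟩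
  · refine h 6 22 22 {0, 1, 2, 6} (by decide) ?_ h22
    exact ⟨0, by decide, 1, by decide, 2, by decide, 6, by decide, 22, by decide, by decide,
      by decide, by decide, by decide, by
        intro x hx _ _
        simp only [mem_insert, mem_singleton] at hx
        omega, by decide, by decide, by decide⟩
  · refine h 6 22 23 {0, 1, 2, 3, 7} (by decide) ?_ h22
    exact ⟨1, by decide, 2, by decide, 3, by decide, 7, by decide, 23, by decide, by decide,
      by decide, by decide, by decide, by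
        intro x hx _ _
        simp only [mem_insert, mem_singleton] at hx
        omega, by decide, by decide, by decide⟩
  · refine h 6 22 24 {0, 1, 2, 3, 4, 8} (by decide) ?_ h22
    exact ⟨2, by decide, 3, by decide, 4, by decide, 8, by decide, 24, by decide, by decide,
      by decide, by decide, by decide, by
        intro x hx _ _
        simp only [mem_insert, mem_singleton] at hx
        omega, by decide, by decide, by decide⟩

end Pool.Agent.Lib.MP_5cdc53_co.VM
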