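import Pool.Agent.Lib.MP_5cdc53_co.VM.Stmts

/-!
# If all designs contain a Vamos configuration then there is no weak growth
-/

set_option autoImplicit false

namespace Pool.Agent.Lib.MP_5cdc53_co.VM

open Finset PP

/-- ten points out of eight -/
def ext10 {α : Type} (p : Fin 8 → α) : Fin 10 → α :=
  fun i => if h : i.val < 8 then p ⟨i.val, h⟩ else p 0

theorem stNoWG (hL : StCirc) (hC : StColor) (hF : StFewV) : StNoWG := by
  intro v f hf hfv hdes hWG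
  obtain ⟨c, hc, hWG⟩ := hWG
  obtain ⟨K, hK⟩ := hL v f hf hfv
  obtain ⟨N, hN⟩ := hF v f (c / (2 * 2 ^ (10 * v))) (by positivity)
  obtain ⟨n, hn, F, hsys, hcard⟩ := hWG (max N (⌈2 * (K : ℝ) / c⌉₊ + 1))
  have hnN : N ≤ n := le_trans (le_max_left _ _) hn
  have hnK : ⌈2 * (K : ℝ) / c⌉₊ + 1 ≤ n := le_trans (le_max_right _ _) hn
  have hn1 : 1 ≤ n := by omega
  have hLc : ({0, 1, 2, f} : Finset ℕ).card = 4 := by
    rw [Finset.card_insert_of_notMem, Finset.card_insert_of_notMem, Finset.card_insert_of_notMem,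
      Finset.card_singleton]
    · simp only [Finset.mem_singleton]; omega
    · simp only [Finset.mem_insert, Finset.mem_singleton]; omega
    · simp only [Finset.mem_insert, Finset.mem_singleton]; omega
  rw [hLc] at hcard
  obtain ⟨M, hMF, A, hLin, hM⟩ := hK n hn1 F hsys
  have hcfg : ∀ G ∈ M, ∃ p : Fin 8 → Fin n, (∀ i, p i ∈ G) ∧ Vam A p := by
    intro G hG
    exact hdes n G A ⟨hLin.card G hG, hLin.circ G hG⟩
  have hn0 : Nonempty (Fin 8 → Fin n) := ⟨fun _ ↦ ⟨0, by omega⟩⟩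
  classical
  choose! p hp hcf using hcfg
  obtain ⟨M', hM', S, hS, hMM⟩ := hC n v M (fun G => ext10 (p G))
    (fun G hG ↦ ⟨hLin.card G hG, fun i => by
      unfold ext10
      split_ifs
      · exact hp G hG _
      · exact hp G hG _⟩)
  have hLin' : Circ v f M' A :=
    ⟨fun G hG ↦ hLin.card G (hM' hG), fun G hG ↦ hLin.circ G (hM' hG),
      fun G hG H hH ↦ hLin.inter G (hM' hG) H (hM' hH)⟩
  have hfew := hN n hnN M' A hLin' p (fun i => S ⟨i.val, by omega⟩)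
    (fun G hG ↦ ⟨hcf G (hM' hG), fun i => by
      have h := hS G hG ⟨i.val, by omega⟩
      rw [h]
      unfold ext10
      simp⟩)
  have h1 : (F.card : ℝ) ≤ M.card + K * (n : ℝ) ^ 3 := by exact_mod_cast hM
  have h2 : (M.card : ℝ) ≤ 2 ^ (10 * v) * M'.card := by exact_mod_cast hMM
  have hpow : (0 : ℝ) < 2 ^ (10 * v) := by positivity
  have hnpos : (0 : ℝ) < n := by exact_mod_cast hn1
  have h3 : 2 * (K : ℝ) / c ≤ n := by
    have h4 := Nat.le_ceil (2 * (K : ℝ) / c)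
    have h5 : ((⌈2 * (K : ℝ) / c⌉₊ : ℕ) : ℝ) ≤ n := by
      exact_mod_cast (by omega : ⌈2 * (K : ℝ) / c⌉₊ ≤ n)
    linarith
  have h4 : 2 * (K : ℝ) ≤ c * n := by
    rw [div_le_iff₀ hc] at h3
    linarith
  have h5 : (K : ℝ) * (n : ℝ) ^ 3 ≤ c / 2 * (n : ℝ) ^ 4 := by
    have := mul_le_mul_of_nonneg_right h4 (by positivity : (0 : ℝ) ≤ (n : ℝ) ^ 3)
    nlinarith
  have h6 : c / 2 * (n : ℝ) ^ 4 ≤ 2 ^ (10 * v) * M'.card := by linarith
  have h7 : (2 : ℝ) ^ (10 * v) * M'.card <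
      2 ^ (10 * v) * (c / (2 * 2 ^ (10 * v)) * (n : ℝ) ^ 4) :=
    mul_lt_mul_of_pos_left hfew hpow
  have h8 : (2 : ℝ) ^ (10 * v) * (c / (2 * 2 ^ (10 * v)) * (n : ℝ) ^ 4) =
      c / 2 * (n : ℝ) ^ 4 := by
    field_simp
  rw [h8] at h7
  linarith

end Pool.Agent.Lib.MP_5cdc53_co.VM
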