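import Pool.Agent.Lib.MP_5cdc53_co.VM.Stmts
import Pool.Agent.Lib.MP_5cdc53_co.PP.AffP

/-!
# One-point extensions of projective planes of order `q ≥ 3` contain a Vamos configuration
-/

set_option autoImplicit false

namespace Pool.Agent.Lib.MP_5cdc53_co.VM

open Finset PP

namespace Ext

variable {α : Type} [DecidableEq α] {P : Finset α} {A : α → α → α → Finset α} {v f : ℕ}

section basic

variable (h : Is3D P A v f)
include h

theorem mem1 {x y z : α} (hx : x ∈ P) (hy : y ∈ P) (hz : z ∈ P) (hxy : x ≠ y) (hxz : x ≠ z)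
    (hyz : y ≠ z) : x ∈ A x y z := (h.circ x hx y hy z hz hxy hxz hyz).1

theorem mem2 {x y z : α} (hx : x ∈ P) (hy : y ∈ P) (hz : z ∈ P) (hxy : x ≠ y) (hxz : x ≠ z)
    (hyz : y ≠ z) : y ∈ A x y z := (h.circ x hx y hy z hz hxy hxz hyz).2.1

theorem mem3 {x y z : α} (hx : x ∈ P) (hy : y ∈ P) (hz : z ∈ P) (hxy : x ≠ y) (hxz : x ≠ z)
    (hyz : y ≠ z) : z ∈ A x y z := (h.circ x hx y hy z hz hxy hxz hyz).2.2.1

theorem subA {x y z : α} (hx : x ∈ P) (hy : y ∈ P) (hz : z ∈ P) (hxy : x ≠ y) (hxz : x ≠ z)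
    (hyz : y ≠ z) : A x y z ⊆ P := (h.circ x hx y hy z hz hxy hxz hyz).2.2.2.1

theorem cardA {x y z : α} (hx : x ∈ P) (hy : y ∈ P) (hz : z ∈ P) (hxy : x ≠ y) (hxz : x ≠ z)
    (hyz : y ≠ z) : (A x y z).card = f := (h.circ x hx y hy z hz hxy hxz hyz).2.2.2.2.1

theorem eqA {x y z u w t : α} (hx : x ∈ P) (hy : y ∈ P) (hz : z ∈ P) (hxy : x ≠ y) (hxz : x ≠ z)
    (hyz : y ≠ z) (hu : u ∈ A x y z) (hw : w ∈ A x y z) (ht : t ∈ A x y z) (huw : u ≠ w)
    (hut : u ≠ t) (hwt : w ≠ t) : A u w t = A x y z :=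
  (h.circ x hx y hy z hz hxy hxz hyz).2.2.2.2.2 u hu w hw t ht huw hut hwt

theorem swap12 {x y z : α} (hx : x ∈ P) (hy : y ∈ P) (hz : z ∈ P) (hxy : x ≠ y) (hxz : x ≠ z)
    (hyz : y ≠ z) : A y x z = A x y z :=
  eqA h hx hy hz hxy hxz hyz (mem2 h hx hy hz hxy hxz hyz) (mem1 h hx hy hz hxy hxz hyz)
    (mem3 h hx hy hz hxy hxz hyz) hxy.symm hyz hxz

theorem rot {x y z : α} (hx : x ∈ P) (hy : y ∈ P) (hz : z ∈ P) (hxy : x ≠ y) (hxz : x ≠ z)
    (hyz : y ≠ z) : A z x y = A x y z :=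
  eqA h hx hy hz hxy hxz hyz (mem3 h hx hy hz hxy hxz hyz) (mem1 h hx hy hz hxy hxz hyz)
    (mem2 h hx hy hz hxy hxz hyz) hxz.symm hyz.symm hxy

end basic

variable {q : ℕ}

/-- the plane derived at `x` -/
theorem derived (h : Is3D P A (q ^ 2 + q + 2) (q + 2)) {x : α} (hx : x ∈ P) :
    IsPlane (P.erase x) (fun y z => (A x y z).erase x) q := by
  refine ⟨?_, ?_⟩
  · rw [card_erase_of_mem hx, h.card]
    rfl
  · intro y hy z hz hyz
    rw [mem_erase] at hy hz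
    have a1 := Ne.symm hy.1
    have a2 := Ne.symm hz.1
    refine ⟨mem_erase.2 ⟨hy.1, mem2 h hx hy.2 hz.2 a1 a2 hyz⟩,
      mem_erase.2 ⟨hz.1, mem3 h hx hy.2 hz.2 a1 a2 hyz⟩, ?_, ?_, ?_⟩
    · exact erase_subset_erase _ (subA h hx hy.2 hz.2 a1 a2 hyz)
    · rw [card_erase_of_mem (mem1 h hx hy.2 hz.2 a1 a2 hyz), cardA h hx hy.2 hz.2 a1 a2 hyz]
      rfl
    · intro u hu w hw huw
      rw [mem_erase] at hu hw
      have := eqA h hx hy.2 hz.2 a1 a2 hyz (mem1 h hx hy.2 hz.2 a1 a2 hyz) hu.2 hw.2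
        (Ne.symm hu.1) (Ne.symm hw.1) huw
      simp only [this]

/-- two circles with a common point `x` have a second common point -/
theorem meet2 (h : Is3D P A (q ^ 2 + q + 2) (q + 2)) {x y z u w : α} (hx : x ∈ P) (hy : y ∈ P)
    (hz : z ∈ P) (hu : u ∈ P) (hw : w ∈ P) (hxy : x ≠ y) (hxz : x ≠ z) (hyz : y ≠ z)
    (hxu : x ≠ u) (hxw : x ≠ w) (huw : u ≠ w) :
    ∃ r, r ≠ x ∧ r ∈ A x y z ∧ r ∈ A x u w := by
  obtain ⟨r, h1, h2⟩ := AffP.meet (derived h hx) (mem_erase.2 ⟨hxy.symm, hy⟩)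
    (mem_erase.2 ⟨hxz.symm, hz⟩) hyz (mem_erase.2 ⟨hxu.symm, hu⟩) (mem_erase.2 ⟨hxw.symm, hw⟩) huw
  rw [mem_erase] at h1 h2
  exact ⟨r, h1.1, h1.2, h2.2⟩

/-- four distinct concircular points -/
structure Quad (P : Finset α) (A : α → α → α → Finset α) (a b c d : α) : Prop where
  ha : a ∈ P
  hb : b ∈ P
  hc : c ∈ P
  hd : d ∈ P
  ab : a ≠ b
  ac : a ≠ c
  ad : a ≠ d
  bc : b ≠ c
  bd : b ≠ d
  cd : c ≠ d
  mem : d ∈ A a b c

/-- `z'` is the partner of `z` with respect to the pairs `ab`, `cd` -/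
structure Pr (P : Finset α) (A : α → α → α → Finset α) (a b c d z z' : α) : Prop where
  hz : z ∈ P
  hz' : z' ∈ P
  ne : z ≠ z'
  out : z ∉ A a b c
  m1 : z' ∈ A a b z
  m2 : z' ∈ A c d z

section quad

variable {a b c d : α}

theorem Quad.circ_eq (Q : Quad P A a b c d) (h : Is3D P A v f) : A c d a = A a b c :=
  eqA h Q.ha Q.hb Q.hc Q.ab Q.ac Q.bc (mem3 h Q.ha Q.hb Q.hc Q.ab Q.ac Q.bc) Q.mem
    (mem1 h Q.ha Q.hb Q.hc Q.ab Q.ac Q.bc) Q.cd Q.ac.symm Q.ad.symm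

theorem Quad.a_mem (Q : Quad P A a b c d) (h : Is3D P A v f) : a ∈ A a b c :=
  mem1 h Q.ha Q.hb Q.hc Q.ab Q.ac Q.bc

theorem Quad.b_mem (Q : Quad P A a b c d) (h : Is3D P A v f) : b ∈ A a b c :=
  mem2 h Q.ha Q.hb Q.hc Q.ab Q.ac Q.bc

theorem Quad.c_mem (Q : Quad P A a b c d) (h : Is3D P A v f) : c ∈ A a b c :=
  mem3 h Q.ha Q.hb Q.hc Q.ab Q.ac Q.bc

omit [DecidableEq α] in
theorem ne_of_out {x : α} {C : Finset α} {z : α} (hz : z ∉ C) (hx : x ∈ C) : x ≠ z :=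
  fun e => hz (e ▸ hx)

/-- a circle through `a, b` and a point outside the block meets the block only in `a, b` -/
theorem out_ab (Q : Quad P A a b c d) (h : Is3D P A v f) {z r : α} (hz : z ∈ P)
    (hzB : z ∉ A a b c) (hr : r ∈ A a b z) (hrB : r ∈ A a b c) : r = a ∨ r = b := by
  by_contra hcon
  push Not at hcon
  have az := ne_of_out hzB (Q.a_mem h)
  have bz := ne_of_out hzB (Q.b_mem h)
  have e1 := eqA h Q.ha Q.hb hz Q.ab az bz (mem1 h Q.ha Q.hb hz Q.ab az bz)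
    (mem2 h Q.ha Q.hb hz Q.ab az bz) hr Q.ab hcon.1.symm hcon.2.symm
  have e2 := eqA h Q.ha Q.hb Q.hc Q.ab Q.ac Q.bc (Q.a_mem h) (Q.b_mem h) hrB Q.ab hcon.1.symm
    hcon.2.symm
  apply hzB
  rw [← e2, e1]
  exact mem3 h Q.ha Q.hb hz Q.ab az bz

theorem out_cd (Q : Quad P A a b c d) (h : Is3D P A v f) {z r : α} (hz : z ∈ P)
    (hzB : z ∉ A a b c) (hr : r ∈ A c d z) (hrB : r ∈ A a b c) : r = c ∨ r = d := by
  by_contra hcon
  push Not at hcon
  have cz := ne_of_out hzB (Q.c_mem h)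
  have dz := ne_of_out hzB Q.mem
  have e1 := eqA h Q.hc Q.hd hz Q.cd cz dz (mem1 h Q.hc Q.hd hz Q.cd cz dz)
    (mem2 h Q.hc Q.hd hz Q.cd cz dz) hr Q.cd hcon.1.symm hcon.2.symm
  have e2 := eqA h Q.ha Q.hb Q.hc Q.ab Q.ac Q.bc (Q.c_mem h) Q.mem hrB Q.cd hcon.1.symm
    hcon.2.symm
  apply hzB
  rw [← e2, e1]
  exact mem3 h Q.hc Q.hd hz Q.cd cz dz

/-- partners exist -/
theorem exists_pr (Q : Quad P A a b c d) (h : Is3D P A (q ^ 2 + q + 2) (q + 2)) {z : α}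
    (hz : z ∈ P) (hzB : z ∉ A a b c) : ∃ z', Pr P A a b c d z z' := by
  have az := ne_of_out hzB (Q.a_mem h)
  have bz := ne_of_out hzB (Q.b_mem h)
  have cz := ne_of_out hzB (Q.c_mem h)
  have dz := ne_of_out hzB Q.mem
  obtain ⟨r, h1, h2, h3⟩ := meet2 h hz Q.ha Q.hb Q.hc Q.hd az.symm bz.symm Q.ab cz.symm dz.symm
    Q.cd
  rw [rot h Q.ha Q.hb hz Q.ab az bz] at h2
  rw [rot h Q.hc Q.hd hz Q.cd cz dz] at h3
  exact ⟨r, hz, subA h Q.ha Q.hb hz Q.ab az bz h2, h1.symm, hzB, h2, h3⟩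

theorem Pr.out' (Q : Quad P A a b c d) (h : Is3D P A v f) {z z' : α}
    (R : Pr P A a b c d z z') : z' ∉ A a b c := by
  intro hB
  have h1 := out_ab Q h R.hz R.out R.m1 hB
  have h2 := out_cd Q h R.hz R.out R.m2 hB
  have := Q.ac; have := Q.ad; have := Q.bc; have := Q.bd
  rcases h1 with rfl | rfl <;> rcases h2 with h2 | h2 <;> contradiction

/-- partners are unique -/
theorem Pr.uniq (Q : Quad P A a b c d) (h : Is3D P A v f) {z z' z'' : α}
    (R : Pr P A a b c d z z') (R' : Pr P A a b c d z z'') : z' = z'' := by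
  by_contra hne
  have az := ne_of_out R.out (Q.a_mem h)
  have bz := ne_of_out R.out (Q.b_mem h)
  have cz := ne_of_out R.out (Q.c_mem h)
  have dz := ne_of_out R.out Q.mem
  have e1 := eqA h Q.ha Q.hb R.hz Q.ab az bz (mem3 h Q.ha Q.hb R.hz Q.ab az bz) R.m1 R'.m1
    R.ne R'.ne hne
  have e2 := eqA h Q.hc Q.hd R.hz Q.cd cz dz (mem3 h Q.hc Q.hd R.hz Q.cd cz dz) R.m2 R'.m2
    R.ne R'.ne hne
  have h1 : c ∈ A a b z := by
    rw [← e1, e2]
    exact mem1 h Q.hc Q.hd R.hz Q.cd cz dz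
  have h2 := out_ab Q h R.hz R.out h1 (Q.c_mem h)
  rcases h2 with h2 | h2
  · exact Q.ac h2.symm
  · exact Q.bc h2.symm

/-- partners are symmetric -/
theorem Pr.symm (Q : Quad P A a b c d) (h : Is3D P A v f) {z z' : α}
    (R : Pr P A a b c d z z') : Pr P A a b c d z' z := by
  have hz'B := R.out' Q h
  have az := ne_of_out R.out (Q.a_mem h)
  have bz := ne_of_out R.out (Q.b_mem h)
  have cz := ne_of_out R.out (Q.c_mem h)
  have dz := ne_of_out R.out Q.mem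
  have az' := ne_of_out hz'B (Q.a_mem h)
  have bz' := ne_of_out hz'B (Q.b_mem h)
  have cz' := ne_of_out hz'B (Q.c_mem h)
  have dz' := ne_of_out hz'B Q.mem
  refine ⟨R.hz', R.hz, R.ne.symm, hz'B, ?_, ?_⟩
  · rw [eqA h Q.ha Q.hb R.hz Q.ab az bz (mem1 h Q.ha Q.hb R.hz Q.ab az bz)
      (mem2 h Q.ha Q.hb R.hz Q.ab az bz) R.m1 Q.ab az' bz']
    exact mem3 h Q.ha Q.hb R.hz Q.ab az bz
  · rw [eqA h Q.hc Q.hd R.hz Q.cd cz dz (mem1 h Q.hc Q.hd R.hz Q.cd cz dz)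
      (mem2 h Q.hc Q.hd R.hz Q.cd cz dz) R.m2 Q.cd cz' dz']
    exact mem3 h Q.hc Q.hd R.hz Q.cd cz dz

/-- the bundle property: two partner pairs are concircular -/
theorem star (Q : Quad P A a b c d) (h : Is3D P A v f)
    (hno : ∀ p : Fin 8 → α, (∀ i, p i ∈ P) → ¬ Vam A p) {z z' w w' : α}
    (R : Pr P A a b c d z z') (R' : Pr P A a b c d w w') (hwz : w ≠ z) (hwz' : w ≠ z') :
    w' ∈ A z z' w := by
  have az := ne_of_out R.out (Q.a_mem h)
  have bz := ne_of_out R.out (Q.b_mem h)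
  have cz := ne_of_out R.out (Q.c_mem h)
  have dz := ne_of_out R.out Q.mem
  have hz'B := R.out' Q h
  have az' := ne_of_out hz'B (Q.a_mem h)
  have bz' := ne_of_out hz'B (Q.b_mem h)
  have cz' := ne_of_out hz'B (Q.c_mem h)
  have dz' := ne_of_out hz'B Q.mem
  have aw := ne_of_out R'.out (Q.a_mem h)
  have bw := ne_of_out R'.out (Q.b_mem h)
  have cw := ne_of_out R'.out (Q.c_mem h)
  have dw := ne_of_out R'.out Q.mem
  have hw'B := R'.out' Q h
  have aw' := ne_of_out hw'B (Q.a_mem h)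
  have bw' := ne_of_out hw'B (Q.b_mem h)
  have cw' := ne_of_out hw'B (Q.c_mem h)
  have dw' := ne_of_out hw'B Q.mem
  have hw'z : z ≠ w' := by
    rintro rfl
    exact hwz' ((Pr.uniq Q h (R'.symm Q h) R))
  have hw'z' : z' ≠ w' := by
    rintro rfl
    exact hwz ((Pr.uniq Q h (R'.symm Q h) (R.symm Q h)))
  by_cases hin : w ∈ A a b z
  · have e1 := eqA h Q.ha Q.hb R.hz Q.ab az bz (mem3 h Q.ha Q.hb R.hz Q.ab az bz) R.m1 hin
      R.ne hwz.symm hwz'.symm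
    have e2 := eqA h Q.ha Q.hb R.hz Q.ab az bz (mem1 h Q.ha Q.hb R.hz Q.ab az bz)
      (mem2 h Q.ha Q.hb R.hz Q.ab az bz) hin Q.ab aw bw
    rw [e1, ← e2]
    exact R'.m1
  · by_contra hcon
    refine hno ![a, b, c, d, z, z', w, w'] ?_ ⟨?_, Q.mem, R.m1, R'.m1, R.m2, R'.m2, R.out,
      R'.out, hin, hcon⟩
    · intro i
      fin_cases i
      · exact Q.ha
      · exact Q.hb
      · exact Q.hc
      · exact Q.hd
      · exact R.hz
      · exact R.hz'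
      · exact R'.hz
      · exact R'.hz'
    · have h1 := Q.ab; have h2 := Q.ac; have h3 := Q.ad; have h4 := Q.bc; have h5 := Q.bd
      have h6 := Q.cd; have h7 := R.ne; have h8 := R'.ne
      intro i j hij
      fin_cases i <;> fin_cases j <;> first | rfl | (exfalso; simp at hij; grind)

/-- the data of the final count -/
structure Fin4 (P : Finset α) (A : α → α → α → Finset α) (a b c d z0 z0' : α) : Prop where
  Q : Quad P A a b c d
  R0 : Pr P A a b c d z0 z0'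

/-- the pairs on the block -/
structure Tr (P : Finset α) (A : α → α → α → Finset α) (a b c z0 z0' w w' : α) : Prop where
  hw : w ∈ A a b c
  hw' : w' ∈ A a b c
  ne : w ≠ w'
  m : w' ∈ A z0 z0' w

section fin4

variable {z0 z0' : α}

theorem Fin4.memP (D : Fin4 P A a b c d z0 z0') (h : Is3D P A v f) {w : α} (hw : w ∈ A a b c) :
    w ∈ P := subA h D.Q.ha D.Q.hb D.Q.hc D.Q.ab D.Q.ac D.Q.bc hw

theorem Fin4.z0ne (D : Fin4 P A a b c d z0 z0') (h : Is3D P A v f) {w : α}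
    (hw : w ∈ A a b c) : z0 ≠ w ∧ z0' ≠ w :=
  ⟨(ne_of_out D.R0.out hw).symm, (ne_of_out (D.R0.out' D.Q h) hw).symm⟩

theorem Fin4.blockEq (D : Fin4 P A a b c d z0 z0') (h : Is3D P A v f) {u w t : α}
    (hu : u ∈ A a b c) (hw : w ∈ A a b c) (ht : t ∈ A a b c) (huw : u ≠ w) (hut : u ≠ t)
    (hwt : w ≠ t) : A u w t = A a b c :=
  eqA h D.Q.ha D.Q.hb D.Q.hc D.Q.ab D.Q.ac D.Q.bc hu hw ht huw hut hwt

/-- the circle `z0 z0' w` for `w` on the block -/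
theorem Tr.circ (D : Fin4 P A a b c d z0 z0') (h : Is3D P A v f) {w u x y : α}
    (hw : w ∈ A a b c) (hu : u ∈ A z0 z0' w) (hx : x ∈ A z0 z0' w) (hy : y ∈ A z0 z0' w)
    (hux : u ≠ x) (huy : u ≠ y) (hxy : x ≠ y) : A u x y = A z0 z0' w := by
  have n := D.z0ne h hw
  exact eqA h D.R0.hz D.R0.hz' (D.memP h hw) D.R0.ne n.1 n.2 hu hx hy hux huy hxy

theorem Tr.uniq (D : Fin4 P A a b c d z0 z0') (h : Is3D P A v f) {w w' w'' : α}
    (R : Tr P A a b c z0 z0' w w') (R' : Tr P A a b c z0 z0' w w'') : w' = w'' := by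
  by_contra hne
  have n := D.z0ne h R.hw
  have m3 := mem3 h D.R0.hz D.R0.hz' (D.memP h R.hw) D.R0.ne n.1 n.2
  have e1 := Tr.circ D h R.hw m3 R.m R'.m R.ne R'.ne hne
  have e2 := D.blockEq h R.hw R.hw' R'.hw' R.ne R'.ne hne
  apply D.R0.out
  rw [← e2, e1]
  exact mem1 h D.R0.hz D.R0.hz' (D.memP h R.hw) D.R0.ne n.1 n.2

theorem Tr.symm (D : Fin4 P A a b c d z0 z0') (h : Is3D P A v f) {w w' : α}
    (R : Tr P A a b c z0 z0' w w') : Tr P A a b c z0 z0' w' w := by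
  have n := D.z0ne h R.hw
  have n' := D.z0ne h R.hw'
  have m1 := mem1 h D.R0.hz D.R0.hz' (D.memP h R.hw) D.R0.ne n.1 n.2
  have m2 := mem2 h D.R0.hz D.R0.hz' (D.memP h R.hw) D.R0.ne n.1 n.2
  refine ⟨R.hw', R.hw, R.ne.symm, ?_⟩
  rw [Tr.circ D h R.hw m1 m2 R.m D.R0.ne n'.1 n'.2]
  exact mem3 h D.R0.hz D.R0.hz' (D.memP h R.hw) D.R0.ne n.1 n.2

theorem exists_tr (D : Fin4 P A a b c d z0 z0') (h : Is3D P A (q ^ 2 + q + 2) (q + 2)) {w : α}
    (hw : w ∈ A a b c) : ∃ w', Tr P A a b c z0 z0' w w' := by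
  have n := D.z0ne h hw
  -- two further points of the block
  obtain ⟨u, x, hu, hx, hwu, hwx, hux⟩ : ∃ u x, u ∈ A a b c ∧ x ∈ A a b c ∧ w ≠ u ∧ w ≠ x ∧
      u ≠ x := by
    have h1 := D.Q.a_mem h; have h2 := D.Q.b_mem h; have h3 := D.Q.c_mem h
    have := D.Q.ab; have := D.Q.ac; have := D.Q.bc
    by_cases e1 : w = a
    · exact ⟨b, c, h2, h3, by rw [e1]; assumption, by rw [e1]; assumption, by assumption⟩
    · by_cases e2 : w = b
      · exact ⟨a, c, h1, h3, e1, by rw [e2]; assumption, by assumption⟩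
      · exact ⟨a, b, h1, h2, e1, e2, by assumption⟩
  obtain ⟨r, h1, h2, h3⟩ := meet2 h (D.memP h hw) D.R0.hz D.R0.hz' (D.memP h hu) (D.memP h hx)
    n.1.symm n.2.symm D.R0.ne hwu hwx hux
  rw [rot h D.R0.hz D.R0.hz' (D.memP h hw) D.R0.ne n.1 n.2] at h2
  rw [D.blockEq h hw hu hx hwu hwx hux] at h3
  exact ⟨r, hw, h3, h1.symm, h2⟩

/-- the cross case -/
theorem cross (D : Fin4 P A a b c d z0 z0') (h : Is3D P A v f)
    (hno : ∀ p : Fin 8 → α, (∀ i, p i ∈ P) → ¬ Vam A p) {z z' w w' : α}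
    (R : Pr P A a b c d z z') (T : Tr P A a b c z0 z0' w w') : w' ∈ A z z' w := by
  have Q := D.Q
  have az := ne_of_out R.out (Q.a_mem h)
  have bz := ne_of_out R.out (Q.b_mem h)
  have cz := ne_of_out R.out (Q.c_mem h)
  have dz := ne_of_out R.out Q.mem
  have hz'B := R.out' Q h
  have az' := ne_of_out hz'B (Q.a_mem h)
  have bz' := ne_of_out hz'B (Q.b_mem h)
  have cz' := ne_of_out hz'B (Q.c_mem h)
  have dz' := ne_of_out hz'B Q.mem
  have az0 := ne_of_out D.R0.out (Q.a_mem h)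
  have bz0 := ne_of_out D.R0.out (Q.b_mem h)
  have cz0 := ne_of_out D.R0.out (Q.c_mem h)
  have dz0 := ne_of_out D.R0.out Q.mem
  have hz0B := D.R0.out' Q h
  have az0' := ne_of_out hz0B (Q.a_mem h)
  have bz0' := ne_of_out hz0B (Q.b_mem h)
  have cz0' := ne_of_out hz0B (Q.c_mem h)
  have dz0' := ne_of_out hz0B Q.mem
  have nw := D.z0ne h T.hw
  -- the pairs `ab` and `cd` are pairs of the block
  have Tab : Tr P A a b c z0 z0' a b := by
    refine ⟨Q.a_mem h, Q.b_mem h, Q.ab, ?_⟩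
    rw [eqA h Q.ha Q.hb D.R0.hz Q.ab az0 bz0 (mem3 h Q.ha Q.hb D.R0.hz Q.ab az0 bz0) D.R0.m1
      (mem1 h Q.ha Q.hb D.R0.hz Q.ab az0 bz0) D.R0.ne az0.symm az0'.symm]
    exact mem2 h Q.ha Q.hb D.R0.hz Q.ab az0 bz0
  have Tcd : Tr P A a b c z0 z0' c d := by
    refine ⟨Q.c_mem h, Q.mem, Q.cd, ?_⟩
    rw [eqA h Q.hc Q.hd D.R0.hz Q.cd cz0 dz0 (mem3 h Q.hc Q.hd D.R0.hz Q.cd cz0 dz0) D.R0.m2
      (mem1 h Q.hc Q.hd D.R0.hz Q.cd cz0 dz0) D.R0.ne cz0.symm cz0'.symm]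
    exact mem2 h Q.hc Q.hd D.R0.hz Q.cd cz0 dz0
  by_cases e1 : z = z0
  · subst e1
    rw [Pr.uniq Q h R D.R0]
    exact T.m
  by_cases e2 : z = z0'
  · subst e2
    rw [Pr.uniq Q h R (D.R0.symm Q h)]
    rw [swap12 h D.R0.hz D.R0.hz' (D.memP h T.hw) D.R0.ne nw.1 nw.2]
    exact T.m
  by_cases e3 : w = a
  · subst e3
    rw [Tr.uniq D h T Tab]
    rw [eqA h Q.ha Q.hb R.hz Q.ab az bz (mem3 h Q.ha Q.hb R.hz Q.ab az bz) R.m1
      (mem1 h Q.ha Q.hb R.hz Q.ab az bz) R.ne az.symm az'.symm]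
    exact mem2 h Q.ha Q.hb R.hz Q.ab az bz
  by_cases e4 : w = b
  · subst e4
    rw [Tr.uniq D h T (Tab.symm D h)]
    rw [eqA h Q.ha Q.hb R.hz Q.ab az bz (mem3 h Q.ha Q.hb R.hz Q.ab az bz) R.m1
      (mem2 h Q.ha Q.hb R.hz Q.ab az bz) R.ne bz.symm bz'.symm]
    exact mem1 h Q.ha Q.hb R.hz Q.ab az bz
  by_cases e5 : w = c
  · subst e5
    rw [Tr.uniq D h T Tcd]
    rw [eqA h Q.hc Q.hd R.hz Q.cd cz dz (mem3 h Q.hc Q.hd R.hz Q.cd cz dz) R.m2
      (mem1 h Q.hc Q.hd R.hz Q.cd cz dz) R.ne cz.symm cz'.symm]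
    exact mem2 h Q.hc Q.hd R.hz Q.cd cz dz
  by_cases e6 : w = d
  · subst e6
    rw [Tr.uniq D h T (Tcd.symm D h)]
    rw [eqA h Q.hc Q.hd R.hz Q.cd cz dz (mem3 h Q.hc Q.hd R.hz Q.cd cz dz) R.m2
      (mem2 h Q.hc Q.hd R.hz Q.cd cz dz) R.ne dz.symm dz'.symm]
    exact mem1 h Q.hc Q.hd R.hz Q.cd cz dz
  have hwz : w ≠ z := ne_of_out R.out T.hw
  have hwz' : w ≠ z' := ne_of_out hz'B T.hw
  have hs : z' ∈ A z0 z0' z := star Q h hno D.R0 R e1 e2
  by_cases hin : z ∈ A a b z0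
  · have hout : z ∉ A c d z0 := by
      intro hcd
      exact e2 (Pr.uniq Q h (⟨D.R0.hz, R.hz, Ne.symm e1, D.R0.out, hin, hcd⟩ :
        Pr P A a b c d z0 z) D.R0)
    have Q2 : Quad P A c d z0 z0' := ⟨Q.hc, Q.hd, D.R0.hz, D.R0.hz', Q.cd, cz0, cz0', dz0, dz0',
      D.R0.ne, D.R0.m2⟩
    have R1 : Pr P A c d z0 z0' z z' := ⟨R.hz, R.hz', R.ne, hout, R.m2, hs⟩
    have R2 : Pr P A c d z0 z0' w w' := by
      refine ⟨D.memP h T.hw, D.memP h T.hw', T.ne, ?_, ?_, T.m⟩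
      · intro hw
        rcases out_cd Q h D.R0.hz D.R0.out hw T.hw with e | e
        · exact e5 e
        · exact e6 e
      · rw [D.blockEq h (Q.c_mem h) Q.mem T.hw Q.cd (Ne.symm e5) (Ne.symm e6)]
        exact T.hw'
    exact star Q2 h hno R1 R2 hwz hwz'
  · have Q1 : Quad P A a b z0 z0' := ⟨Q.ha, Q.hb, D.R0.hz, D.R0.hz', Q.ab, az0, az0', bz0, bz0',
      D.R0.ne, D.R0.m1⟩
    have R1 : Pr P A a b z0 z0' z z' := ⟨R.hz, R.hz', R.ne, hin, R.m1, hs⟩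
    have R2 : Pr P A a b z0 z0' w w' := by
      refine ⟨D.memP h T.hw, D.memP h T.hw', T.ne, ?_, ?_, T.m⟩
      · intro hw
        rcases out_ab Q h D.R0.hz D.R0.out hw T.hw with e | e
        · exact e3 e
        · exact e4 e
      · rw [D.blockEq h (Q.a_mem h) (Q.b_mem h) T.hw Q.ab (Ne.symm e3) (Ne.symm e4)]
        exact T.hw'
    exact star Q1 h hno R1 R2 hwz hwz'

end fin4

end quad

/-- the count: a fixed point free involution all of whose pairs are concircular -/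
theorem count (h : Is3D P A (q ^ 2 + q + 2) (q + 2)) (hq : 3 ≤ q) (σ : α → α)
    (h1 : ∀ z ∈ P, σ z ∈ P) (h2 : ∀ z ∈ P, σ z ≠ z) (h3 : ∀ z ∈ P, σ (σ z) = z)
    (h4 : ∀ z ∈ P, ∀ w ∈ P, w ≠ z → w ≠ σ z → σ w ∈ A z (σ z) w) : False := by
  classical
  set C : Finset (Finset α) := ((P ×ˢ P).filter (fun y => y.2 ≠ y.1 ∧ y.2 ≠ σ y.1)).image
    (fun y => A y.1 (σ y.1) y.2) with hC
  have memC : ∀ K, K ∈ C ↔ ∃ z ∈ P, ∃ w ∈ P, w ≠ z ∧ w ≠ σ z ∧ A z (σ z) w = K := by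
    intro K
    rw [hC, mem_image]
    constructor
    · rintro ⟨y, hy, rfl⟩
      rw [mem_filter, mem_product] at hy
      exact ⟨y.1, hy.1.1, y.2, hy.1.2, hy.2.1, hy.2.2, rfl⟩
    · rintro ⟨z, hz, w, hw, e1, e2, rfl⟩
      exact ⟨(z, w), by rw [mem_filter, mem_product]; exact ⟨⟨hz, hw⟩, e1, e2⟩, rfl⟩
  -- properties of the members of `C`
  have hK : ∀ K ∈ C, K ⊆ P ∧ K.card = q + 2 ∧
      (∀ u ∈ K, ∀ w ∈ K, ∀ t ∈ K, u ≠ w → u ≠ t → w ≠ t → A u w t = K) ∧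
      ∀ t ∈ K, σ t ∈ K := by
    intro K hKC
    obtain ⟨z, hz, w, hw, e1, e2, rfl⟩ := (memC K).1 hKC
    have n1 : z ≠ σ z := (h2 z hz).symm
    refine ⟨subA h hz (h1 z hz) hw n1 e1.symm e2.symm,
      cardA h hz (h1 z hz) hw n1 e1.symm e2.symm,
      fun u hu x hx t ht => eqA h hz (h1 z hz) hw n1 e1.symm e2.symm hu hx ht, ?_⟩
    intro t ht
    by_cases t1 : t = z
    · rw [t1]
      exact mem2 h hz (h1 z hz) hw n1 e1.symm e2.symm
    by_cases t2 : t = σ z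
    · rw [t2, h3 z hz]
      exact mem1 h hz (h1 z hz) hw n1 e1.symm e2.symm
    have htP := subA h hz (h1 z hz) hw n1 e1.symm e2.symm ht
    have := h4 z hz t htP t1 t2
    rwa [eqA h hz (h1 z hz) hw n1 e1.symm e2.symm (mem1 h hz (h1 z hz) hw n1 e1.symm e2.symm)
      (mem2 h hz (h1 z hz) hw n1 e1.symm e2.symm) ht n1 (Ne.symm t1) (Ne.symm t2)] at this
  -- the degree of a point
  have hdeg : ∀ z ∈ P, (C.filter (fun K => z ∈ K)).card = q + 1 := by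
    intro z hz
    have n1 : z ≠ σ z := (h2 z hz).symm
    have e0 : ((P.erase z).erase (σ z)).card = q ^ 2 + q := by
      rw [card_erase_of_mem (mem_erase.2 ⟨h2 z hz, h1 z hz⟩), card_erase_of_mem hz, h.card]
      rfl
    have s1 : ∑ w ∈ (P.erase z).erase (σ z),
        ((C.filter (fun K => z ∈ K)).filter (fun K => w ∈ K)).card = q ^ 2 + q := by
      have : ∀ w ∈ (P.erase z).erase (σ z),
          ((C.filter (fun K => z ∈ K)).filter (fun K => w ∈ K)).card = 1 := by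
        intro w hw
        rw [mem_erase, mem_erase] at hw
        rw [card_eq_one]
        refine ⟨A z (σ z) w, ?_⟩
        ext K
        rw [mem_filter, mem_filter, mem_singleton]
        constructor
        · rintro ⟨⟨hKC, hzK⟩, hwK⟩
          exact ((hK K hKC).2.2.1 z hzK (σ z) ((hK K hKC).2.2.2 z hzK) w hwK n1 hw.2.1.symm
            hw.1.symm).symm
        · rintro rfl
          exact ⟨⟨(memC _).2 ⟨z, hz, w, hw.2.2, hw.2.1, hw.1, rfl⟩,
            mem1 h hz (h1 z hz) hw.2.2 n1 hw.2.1.symm hw.1.symm⟩,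
            mem3 h hz (h1 z hz) hw.2.2 n1 hw.2.1.symm hw.1.symm⟩
      rw [sum_congr rfl this, sum_const, smul_eq_mul, mul_one, e0]
    have s2 := Finset.sum_card_bipartiteAbove_eq_sum_card_bipartiteBelow
      (s := (P.erase z).erase (σ z)) (t := C.filter (fun K => z ∈ K)) (fun w K => w ∈ K)
    unfold Finset.bipartiteAbove Finset.bipartiteBelow at s2
    rw [s1] at s2
    have s3 : ∀ K ∈ C.filter (fun K => z ∈ K),
        (((P.erase z).erase (σ z)).filter (fun w => w ∈ K)).card = q := by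
      intro K hKz
      rw [mem_filter] at hKz
      obtain ⟨k1, k2, k3, k4⟩ := hK K hKz.1
      have e : ((P.erase z).erase (σ z)).filter (fun w => w ∈ K) = (K.erase z).erase (σ z) := by
        ext w
        simp only [mem_filter, mem_erase]
        constructor
        · rintro ⟨⟨a1, a2, -⟩, a4⟩
          exact ⟨a1, a2, a4⟩
        · rintro ⟨a1, a2, a3⟩
          exact ⟨⟨a1, a2, k1 a3⟩, a3⟩
      rw [e, card_erase_of_mem (mem_erase.2 ⟨h2 z hz, k4 z hKz.2⟩), card_erase_of_mem hKz.2, k2]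
      rfl
    rw [sum_congr rfl s3, sum_const, smul_eq_mul] at s2
    have hq0 : 0 < q := by omega
    have : (C.filter (fun K => z ∈ K)).card * q = (q + 1) * q := by rw [← s2]; ring
    exact Nat.eq_of_mul_eq_mul_right hq0 this
  have s2 := Finset.sum_card_bipartiteAbove_eq_sum_card_bipartiteBelow
    (s := P) (t := C) (fun w K => w ∈ K)
  unfold Finset.bipartiteAbove Finset.bipartiteBelow at s2
  rw [sum_congr rfl hdeg, sum_const, smul_eq_mul, h.card] at s2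
  have s3 : ∀ K ∈ C, (P.filter (fun w => w ∈ K)).card = q + 2 := by
    intro K hKC
    obtain ⟨k1, k2, -, -⟩ := hK K hKC
    have e : P.filter (fun w => w ∈ K) = K := by
      ext w
      simp only [mem_filter]
      exact ⟨fun a => a.2, fun a => ⟨k1 a, a⟩⟩
    rw [e, k2]
  rw [sum_congr rfl s3, sum_const, smul_eq_mul] at s2
  have hd : (q + 2) ∣ 4 := by
    have h5 : (q + 2) ∣ C.card * (q + 2) := Dvd.intro_left _ rfl
    have h6 : (q + 2) ∣ (q ^ 2 + 3) * (q + 2) := Dvd.intro_left _ rfl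
    have h7 : (q ^ 2 + 3) * (q + 2) = C.card * (q + 2) + 4 := by rw [← s2]; ring
    rw [h7] at h6
    exact (Nat.dvd_add_right h5).1 h6
  have := Nat.le_of_dvd (by norm_num) hd
  omega

end Ext

open Ext in
theorem stVExt : StVExt := by
  classical
  intro α _ P A q hq h
  by_contra hcon
  push Not at hcon
  have hno : ∀ p : Fin 8 → α, (∀ i, p i ∈ P) → ¬ Vam A p := hcon
  have hcard := h.card
  obtain ⟨a, b, c, ha, hb, hc, hab, hac, hbc⟩ := Finset.two_lt_card_iff.1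
    (by rw [hcard]; nlinarith : 2 < P.card)
  have hBc := cardA h ha hb hc hab hac hbc
  obtain ⟨d, hd, hd'⟩ : ∃ d ∈ A a b c, d ∉ ({a, b, c} : Finset α) := by
    by_contra hall
    push Not at hall
    have h1 : A a b c ⊆ {a, b, c} := hall
    have h2 := card_le_card h1
    have h3 : ({a, b, c} : Finset α).card ≤ 3 := card_le_three
    omega
  simp only [mem_insert, mem_singleton, not_or] at hd'
  have hdP := subA h ha hb hc hab hac hbc hd
  have Q : Quad P A a b c d := ⟨ha, hb, hc, hdP, hab, hac, Ne.symm hd'.1, hbc, Ne.symm hd'.2.1,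
    Ne.symm hd'.2.2, hd⟩
  obtain ⟨z0, hz0, hz0B⟩ : ∃ z0 ∈ P, z0 ∉ A a b c := by
    by_contra hall
    push Not at hall
    have h2 := card_le_card (show P ⊆ A a b c from hall)
    rw [hcard, hBc] at h2
    nlinarith
  obtain ⟨z0', R0⟩ := exists_pr Q h hz0 hz0B
  have D : Fin4 P A a b c d z0 z0' := ⟨Q, R0⟩
  have hσ : ∀ z, ∃ z', z ∈ P → (z ∉ A a b c → Pr P A a b c d z z') ∧
      (z ∈ A a b c → Tr P A a b c z0 z0' z z') := by
    intro z
    by_cases hzP : z ∈ P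
    · by_cases hzB : z ∈ A a b c
      · obtain ⟨z', h1⟩ := exists_tr D h hzB
        exact ⟨z', fun _ => ⟨fun h2 => absurd hzB h2, fun _ => h1⟩⟩
      · obtain ⟨z', h1⟩ := exists_pr Q h hzP hzB
        exact ⟨z', fun _ => ⟨fun _ => h1, fun h2 => absurd h2 hzB⟩⟩
    · exact ⟨z, fun h1 => absurd h1 hzP⟩
  choose σ hσ using hσ
  refine count h hq σ ?_ ?_ ?_ ?_
  · intro z hz
    by_cases hzB : z ∈ A a b c
    · exact D.memP h ((hσ z hz).2 hzB).hw'
    · exact ((hσ z hz).1 hzB).hz'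
  · intro z hz
    by_cases hzB : z ∈ A a b c
    · exact ((hσ z hz).2 hzB).ne.symm
    · exact ((hσ z hz).1 hzB).ne.symm
  · intro z hz
    by_cases hzB : z ∈ A a b c
    · have T := (hσ z hz).2 hzB
      exact Tr.uniq D h ((hσ (σ z) (D.memP h T.hw')).2 T.hw') (T.symm D h)
    · have R := (hσ z hz).1 hzB
      exact Pr.uniq Q h ((hσ (σ z) R.hz').1 (R.out' Q h)) (R.symm Q h)
  · intro z hz w hw hwz hwz'
    by_cases hzB : z ∈ A a b c
    · have T := (hσ z hz).2 hzB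
      by_cases hwB : w ∈ A a b c
      · rw [D.blockEq h hzB T.hw' hwB T.ne (Ne.symm hwz) (Ne.symm hwz')]
        exact ((hσ w hw).2 hwB).hw'
      · have R := (hσ w hw).1 hwB
        have h1 := cross D h hno R T
        have n1 : w ≠ z := hwz
        have n2 : σ w ≠ z := (ne_of_out (R.out' Q h) hzB).symm
        rw [eqA h hw R.hz' hz R.ne n1 n2 (mem3 h hw R.hz' hz R.ne n1 n2) h1
          (mem1 h hw R.hz' hz R.ne n1 n2) T.ne hwz.symm hwz'.symm]
        exact mem2 h hw R.hz' hz R.ne n1 n2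
    · have R := (hσ z hz).1 hzB
      by_cases hwB : w ∈ A a b c
      · exact cross D h hno R ((hσ w hw).2 hwB)
      · exact star Q h hno R ((hσ w hw).1 hwB) hwz hwz'

end Pool.Agent.Lib.MP_5cdc53_co.VM
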