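import Pool.Agent.Lib.MP_5cdc53_co.PP.Assemble3
import Pool.Agent.Lib.MP_5cdc53_co.VM.CircP
import Pool.Agent.Lib.MP_5cdc53_co.VM.FewV
import Pool.Agent.Lib.MP_5cdc53_co.VM.NoWG
import Pool.Agent.Lib.MP_5cdc53_co.VM.VExt
import Pool.Agent.Lib.MP_5cdc53_co.VM.Final

/-!
# VM/Assemble (helper45)
-/

set_option autoImplicit false

namespace Pool.Agent.Lib.MP_5cdc53_co.VM

open PP

theorem asm_noWG : StNoWG := stNoWG (stCirc stTrace) stColor stFewV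

theorem asm_bundle : ∀ (f v k : ℕ) (L : Finset ℕ), (∀ l ∈ L, l < k) → Type5 f v k L →
    ¬ HasBundle v f →
    Filter.Tendsto (fun n : ℕ => (m n k L : ℝ) / (n : ℝ) ^ L.card) Filter.atTop (nhds 0) :=
  final_bundle asm_noWG asm_stRed5

theorem asm_noBundle : ∀ q : ℕ, 3 ≤ q → ¬ HasBundle (q ^ 2 + q + 2) (q + 2) :=
  fun _ hq => noBundle_ext stVExt hq

theorem asm_iff : ∀ q : ℕ, 2 ≤ q →
    (FullGrowth (q ^ 2 + q + 2) {0, 1, 2, q + 2} ↔ q = 2) :=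
  final_iff asm_noWG stVExt stFG stAG

theorem asm_witt :
    Filter.Tendsto (fun n : ℕ => (m n 22 {0, 1, 2, 6} : ℝ) / (n : ℝ) ^ 4)
      Filter.atTop (nhds 0) ∧
    Filter.Tendsto (fun n : ℕ => (m n 23 {0, 1, 2, 3, 7} : ℝ) / (n : ℝ) ^ 5)
      Filter.atTop (nhds 0) ∧
    Filter.Tendsto (fun n : ℕ => (m n 24 {0, 1, 2, 3, 4, 8} : ℝ) / (n : ℝ) ^ 6)
      Filter.atTop (nhds 0) :=
  final_witt asm_bundle (by simpa using asm_noBundle 4 (by norm_num))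

end Pool.Agent.Lib.MP_5cdc53_co.VM
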