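import Pool.Agent.Lib.MP_5cdc53_co.PP.Stmts

/-!
# Blueprint (helper45): the bundle (Vamos) obstruction in rank four
-/

set_option autoImplicit false

namespace Pool.Agent.Lib.MP_5cdc53_co.VM

open Finset

/-- `A x y z` is the circle through `x, y, z` in every member of `M` that contains `x, y, z`. -/
structure Circ {n : ℕ} (v f : ℕ) (M : Finset (Finset (Fin n)))
    (A : Fin n → Fin n → Fin n → Finset (Fin n)) : Prop where
  card : ∀ F ∈ M, F.card = v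
  circ : ∀ F ∈ M, ∀ x ∈ F, ∀ y ∈ F, ∀ z ∈ F, x ≠ y → x ≠ z → y ≠ z →
    x ∈ A x y z ∧ y ∈ A x y z ∧ z ∈ A x y z ∧ A x y z ⊆ F ∧ (A x y z).card = f ∧
    ∀ u ∈ A x y z, ∀ w ∈ A x y z, ∀ t ∈ A x y z, u ≠ w → u ≠ t → w ≠ t → A u w t = A x y z
  inter : ∀ F ∈ M, ∀ G ∈ M, F ≠ G → ∀ x ∈ F ∩ G, ∀ y ∈ F ∩ G, ∀ z ∈ F ∩ G, x ≠ y → x ≠ z →
    y ≠ z → F ∩ G = A x y z

/-- after deleting `O(n³)` members all triples are rich -/
def StCirc : Prop := ∀ v f : ℕ, 3 ≤ f → f < v → ∃ K : ℕ, ∀ n : ℕ, 1 ≤ n →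
  ∀ F : Finset (Finset (Fin n)), IsSystem n v {0, 1, 2, f} F → ∃ M, M ⊆ F ∧
    ∃ A : Fin n → Fin n → Fin n → Finset (Fin n), Circ v f M A ∧
      F.card ≤ M.card + K * n ^ 3

/-- a `3-(v, f, 1)` design on the point set `P`; `A x y z` is the circle through the distinct
points `x, y, z` -/
structure Is3D {α : Type} [DecidableEq α] (P : Finset α) (A : α → α → α → Finset α) (v f : ℕ) :
    Prop where
  card : P.card = v
  circ : ∀ x ∈ P, ∀ y ∈ P, ∀ z ∈ P, x ≠ y → x ≠ z → y ≠ z →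
    x ∈ A x y z ∧ y ∈ A x y z ∧ z ∈ A x y z ∧ A x y z ⊆ P ∧ (A x y z).card = f ∧
    ∀ u ∈ A x y z, ∀ w ∈ A x y z, ∀ t ∈ A x y z, u ≠ w → u ≠ t → w ≠ t → A u w t = A x y z

/-- a Vamos configuration: the pairs `01`, `23`, `45`, `67`; all unions of two pairs except
`45 ∪ 67` are concircular -/
structure Vam {α : Type} (A : α → α → α → Finset α) (p : Fin 8 → α) : Prop where
  inj : Function.Injective p
  c12 : p 3 ∈ A (p 0) (p 1) (p 2)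
  c13 : p 5 ∈ A (p 0) (p 1) (p 4)
  c14 : p 7 ∈ A (p 0) (p 1) (p 6)
  c23 : p 5 ∈ A (p 2) (p 3) (p 4)
  c24 : p 7 ∈ A (p 2) (p 3) (p 6)
  n123 : p 4 ∉ A (p 0) (p 1) (p 2)
  n124 : p 6 ∉ A (p 0) (p 1) (p 2)
  n134 : p 6 ∉ A (p 0) (p 1) (p 4)
  n34 : p 7 ∉ A (p 4) (p 5) (p 6)

/-- few coloured members carry a Vamos configuration -/
def StFewV : Prop := ∀ (v f : ℕ) (c : ℝ), 0 < c → ∃ N : ℕ, ∀ n, N ≤ n →
  ∀ (M : Finset (Finset (Fin n))) (A : Fin n → Fin n → Fin n → Finset (Fin n)), Circ v f M A →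
  ∀ (p : Finset (Fin n) → Fin 8 → Fin n) (S : Fin 8 → Finset (Fin n)),
  (∀ F ∈ M, Vam A (p F) ∧ ∀ i, F ∩ S i = {p F i}) → (M.card : ℝ) < c * (n : ℝ) ^ 4

/-- one-point extensions of projective planes of order `q ≥ 3` contain a Vamos configuration -/
def StVExt : Prop := ∀ (α : Type) [DecidableEq α] (P : Finset α) (A : α → α → α → Finset α)
  (q : ℕ), 3 ≤ q → Is3D P A (q ^ 2 + q + 2) (q + 2) → ∃ p : Fin 8 → α, (∀ i, p i ∈ P) ∧ Vam A p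

/-- if all designs contain a Vamos configuration then there is no weak growth -/
def StNoWG : Prop := ∀ v f : ℕ, 3 ≤ f → f < v →
  (∀ (n : ℕ) (P : Finset (Fin n)) (A : Fin n → Fin n → Fin n → Finset (Fin n)), Is3D P A v f →
    ∃ p : Fin 8 → Fin n, (∀ i, p i ∈ P) ∧ Vam A p) → ¬ PP.WG v {0, 1, 2, f}

end Pool.Agent.Lib.MP_5cdc53_co.VM
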